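import Pool.Agent.N599.MD.Prod

/-!
# Few points have a large essential part
-/

set_option autoImplicit false

namespace Pool.Agent.N599.MD

open Finset Classical

variable {n : ℕ}

theorem F_split (g : Fin n → ℕ → ℝ) (j : Fin n) (x : Fin n → ℕ) :
    F g x = g j (x j) * F (Function.update g j fun _ => 1) x := by
  unfold F
  rw [← mul_prod_erase univ (fun i => g i (x i)) (mem_univ j),
    ← mul_prod_erase univ (fun i => Function.update g j (fun _ => 1) i (x i)) (mem_univ j),
    Function.update_self, one_mul]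
  congr 1
  refine prod_congr rfl fun i hi => ?_
  rw [Function.update_of_ne (ne_of_mem_erase hi)]

theorem Good.update {g : Fin n → ℕ → ℝ} (hg : Good g) (j : Fin n) :
    Good (Function.update g j fun _ => 1) := by
  constructor
  · intro i s
    by_cases h : i = j
    · subst h; simp
    · rw [Function.update_of_ne h]; exact hg.nn i s
  · intro i
    by_cases h : i = j
    · subst h; rw [Function.update_self]; exact monotone_const
    · rw [Function.update_of_ne h]; exact hg.mono i

/-- the product of the masses over the coordinates other than `j` -/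
noncomputable def qq (g : Fin n → ℕ → ℝ) (us x : Fin n → ℕ) (j : Fin n) : ℝ :=
  ∏ i ∈ univ.erase j, mm g us x i

theorem rs_split (g : Fin n → ℕ → ℝ) (us x : Fin n → ℕ) (j : Fin n) :
    rs g us x = mm g us x j * qq g us x j := (mul_prod_erase univ _ (mem_univ j)).symm

theorem F_upd (g : Fin n → ℕ → ℝ) (j : Fin n) (x : Fin n → ℕ) :
    F (Function.update g j fun _ => 1) x = ∏ i ∈ univ.erase j, g i (x i) := by
  unfold F
  rw [← mul_prod_erase univ (fun i => Function.update g j (fun _ => 1) i (x i)) (mem_univ j),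
    Function.update_self, one_mul]
  refine prod_congr rfl fun i hi => ?_
  rw [Function.update_of_ne (ne_of_mem_erase hi)]

/-- the box of the coordinates other than `j` -/
noncomputable def dd (us x : Fin n → ℕ) (j : Fin n) : Finset (Fin n → ℕ) :=
  Fintype.piFinset fun i => if i = j then {0} else if us i < x i then {x i} else range (us i + 1)

theorem qq_eq (g : Fin n → ℕ → ℝ) (us x : Fin n → ℕ) (j : Fin n) :
    qq g us x j = ∑ z ∈ dd us x j, rho (Function.update g j fun _ => 1) z := by
  unfold rho dd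
  rw [← prod_univ_sum, ← mul_prod_erase univ _ (mem_univ j)]
  rw [if_pos rfl, sum_singleton, Function.update_self]
  rw [show inc (fun _ => (1 : ℝ)) 0 = 1 from by simp [inc], one_mul]
  refine prod_congr rfl fun i hi => ?_
  rw [Function.update_of_ne (ne_of_mem_erase hi), if_neg (ne_of_mem_erase hi)]
  unfold mm
  split_ifs
  · rw [sum_singleton]
  · rw [sum_inc]

section

variable {Y : Finset (Fin n → ℕ)} (hY : Y.Nonempty) {u : Fin n → ℕ}
  {g : Fin n → ℕ → ℝ} {c : (Fin n → ℕ) → ℝ} {ε : ℝ}

/-- `x` has a large essential part -/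
structure Big (Y : Finset (Fin n → ℕ)) (hY : Y.Nonempty) (u : Fin n → ℕ) (g : Fin n → ℕ → ℝ)
    (c : (Fin n → ℕ) → ℝ) (ε : ℝ) (x : Fin n → ℕ) : Prop where
  adm : Adm Y u x
  big : ε * ∑ y ∈ Y, c y * (F g y - F g (meet Y hY)) < rs g (meet Y hY) x * ∑ y ∈ Y, c y

variable {hY}

theorem Big.rs_pos (hg : Good g) (hc : ∀ y ∈ Y, 1 ≤ c y) (hε : 0 < ε) {x : Fin n → ℕ}
    (h : Big Y hY u g c ε x) : 0 < rs g (meet Y hY) x := by
  have h1 : 0 ≤ ∑ y ∈ Y, c y * (F g y - F g (meet Y hY)) :=
    sum_nonneg fun y hy => mul_nonneg (by linarith [hc y hy])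
      (sub_nonneg.2 (hg.F_mono (meet_le hY hy)))
  have h2 : 0 < rs g (meet Y hY) x * ∑ y ∈ Y, c y := lt_of_le_of_lt (mul_nonneg hε.le h1) h.big
  exact (pos_of_mul_pos_left h2 (sum_nonneg fun y hy => by linarith [hc y hy]))

theorem Big.mm_pos (hg : Good g) (hc : ∀ y ∈ Y, 1 ≤ c y) (hε : 0 < ε) {x : Fin n → ℕ}
    (h : Big Y hY u g c ε x) (i : Fin n) : 0 < mm g (meet Y hY) x i := by
  rcases (hg.mm_nonneg (meet Y hY) x i).lt_or_eq with h1 | h1
  · exact h1
  · have := h.rs_pos hg hc hε
    unfold rs at this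
    rw [prod_eq_zero (mem_univ i) h1.symm] at this
    exact absurd this (lt_irrefl _)

theorem Big.qq_pos (hg : Good g) (hc : ∀ y ∈ Y, 1 ≤ c y) (hε : 0 < ε) {x : Fin n → ℕ}
    (h : Big Y hY u g c ε x) (j : Fin n) : 0 < qq g (meet Y hY) x j :=
  prod_pos fun i _ => h.mm_pos hg hc hε i

theorem Big.ge (hg : Good g) (hc : ∀ y ∈ Y, 1 ≤ c y) (hε : 0 < ε) {x : Fin n → ℕ}
    (h : Big Y hY u g c ε x) {y : Fin n → ℕ} (hy : y ∈ Y) :
    ε * (F g y - F g (meet Y hY)) < rs g (meet Y hY) x * ∑ y ∈ Y, c y := by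
  refine lt_of_le_of_lt (mul_le_mul_of_nonneg_left ?_ hε.le) h.big
  have h1 : F g y - F g (meet Y hY) ≤ c y * (F g y - F g (meet Y hY)) :=
    le_mul_of_one_le_left (sub_nonneg.2 (hg.F_mono (meet_le hY hy))) (hc y hy)
  refine h1.trans ?_
  exact single_le_sum (f := fun y => c y * (F g y - F g (meet Y hY)))
    (fun y hy => mul_nonneg (by linarith [hc y hy]) (sub_nonneg.2 (hg.F_mono (meet_le hY hy)))) hy

/-- points all of whose essential coordinates are at the first nonzero value -/
theorem card_inf (hg : Good g) (hc : ∀ y ∈ Y, 1 ≤ c y) (hε : 0 < ε) {S : Finset (Fin n → ℕ)}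
    (hS : ∀ x ∈ S, Big Y hY u g c ε x)
    (h0 : ∀ x ∈ S, ∀ j, meet Y hY j < x j → g j (x j - 1) = 0) : S.card ≤ 1 := by
  rw [card_le_one]
  have key : ∀ x ∈ S, ∀ x' ∈ S, ∀ i, x i < x' i → False := by
    intro x hx x' hx' i hlt
    have hm := (hS x hx).mm_pos hg hc hε i
    have hm' := (hS x' hx').mm_pos hg hc hε i
    unfold mm at hm hm'
    by_cases h1 : meet Y hY i < x' i
    · have h2 := h0 x' hx' i h1
      have h3 : g i (x i) ≤ g i (x' i - 1) := hg.mono i (by omega)
      have h4 : g i (meet Y hY i) ≤ g i (x' i - 1) := hg.mono i (by omega)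
      split_ifs at hm with h5
      · have h6 := inc_le (hg.nn i) (x i)
        linarith
      · linarith
    · have h2 := (hS x' hx').adm.base hY h1
      have h3 : u i ≤ x i := (hS x hx).adm.le i
      omega
  intro x hx x' hx'
  funext i
  rcases lt_trichotomy (x i) (x' i) with h | h | h
  · exact (key x hx x' hx' i h).elim
  · exact h
  · exact (key x' hx' x hx i h).elim

/-- points with a coordinate at a small jump -/
theorem card_one (hg : Good g) (hc : ∀ y ∈ Y, 1 ≤ c y) (hε : 0 < ε) {S : Finset (Fin n → ℕ)}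
    (hS : ∀ x ∈ S, Big Y hY u g c ε x) {y : Fin n → ℕ} (hy : y ∈ Y) {j : Fin n} {K : ℝ}
    (hK : 0 < K) (hg0 : 0 < g j (y j))
    (h0 : ∀ x ∈ S, meet Y hY j < x j ∧ x j = y j + 1 ∧ (∀ i, i ≠ j → x i ≤ y i) ∧
      inc (g j) (x j) ≤ K * g j (y j)) :
    (S.card : ℝ) ≤ 1 + (∑ y ∈ Y, c y) * K / ε := by
  set us := meet Y hY with hus
  set C := ∑ y ∈ Y, c y with hC
  have hC0 : 0 < C := sum_pos (fun y hy => by linarith [hc y hy]) hY
  set S0 := S.filter (fun x => ∀ i, i ≠ j → ¬ us i < x i) with hS0
  set S1 := S.filter (fun x => ¬ ∀ i, i ≠ j → ¬ us i < x i) with hS1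
  have hcard : S0.card + S1.card = S.card := card_filter_add_card_filter_not _
  have hc0 : S0.card ≤ 1 := by
    rw [card_le_one]
    intro x hx x' hx'
    rw [hS0, mem_filter] at hx hx'
    funext i
    by_cases hi : i = j
    · subst hi; rw [(h0 x hx.1).2.1, (h0 x' hx'.1).2.1]
    · rw [(hS x hx.1).adm.base hY (hx.2 i hi), (hS x' hx'.1).adm.base hY (hx'.2 i hi)]
  set g' := Function.update g j (fun _ => (1 : ℝ)) with hg'
  have hgg : Good g' := hg.update j
  have hsub : S1.biUnion (fun x => dd us x j) ⊆ box y \ box us := by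
    intro z hz
    rw [mem_biUnion] at hz
    obtain ⟨x, hx, hz⟩ := hz
    rw [hS1, mem_filter] at hx
    obtain ⟨hx, hx2⟩ := hx
    push Not at hx2
    obtain ⟨a, ha, hax⟩ := hx2
    unfold dd at hz
    rw [Fintype.mem_piFinset] at hz
    rw [mem_sdiff, mem_box, mem_box]
    constructor
    · intro i
      have h1 := hz i
      have h2 : us i ≤ y i := meet_le hY hy i
      split_ifs at h1 with h3 h4
      · rw [mem_singleton] at h1; rw [h1]; exact Nat.zero_le _
      · rw [mem_singleton] at h1; rw [h1]; exact (h0 x hx).2.2.1 i h3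
      · rw [mem_range] at h1; show z i ≤ y i; omega
    · intro hle
      have h1 := hz a
      have h2 : z a ≤ us a := hle a
      rw [if_neg ha, if_pos hax, mem_singleton] at h1
      omega
  have hdis : ∀ x ∈ S1, ∀ x' ∈ S1, x ≠ x' → Disjoint (dd us x j) (dd us x' j) := by
    intro x hx x' hx' hne
    rw [disjoint_left]
    intro z hz hz'
    apply hne
    rw [hS1, mem_filter] at hx hx'
    unfold dd at hz hz'
    rw [Fintype.mem_piFinset] at hz hz'
    funext i
    by_cases hi : i = j
    · subst hi; rw [(h0 x hx.1).2.1, (h0 x' hx'.1).2.1]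
    · have h1 := hz i
      have h2 := hz' i
      rw [if_neg hi] at h1 h2
      split_ifs at h1 h2 with h3 h4 h4
      · rw [mem_singleton] at h1 h2; omega
      · rw [mem_singleton] at h1; rw [mem_range] at h2; omega
      · rw [mem_singleton] at h2; rw [mem_range] at h1; omega
      · rw [(hS x hx.1).adm.base hY h3, (hS x' hx'.1).adm.base hY h4]
  have hbox : box us ⊆ box y := fun z hz => by
    rw [mem_box] at hz ⊢; exact hz.trans (meet_le hY hy)
  have hsum : ∑ x ∈ S1, qq g us x j ≤ F g' y - F g' us := by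
    rw [sum_congr rfl fun x _ => qq_eq g us x j, ← sum_biUnion hdis]
    refine (sum_le_sum_of_subset_of_nonneg hsub fun z _ _ => hgg.rho_nonneg z).trans ?_
    rw [F_eq, F_eq, ← sum_sdiff hbox]
    linarith
  have hge : ∀ x ∈ S1, ε * (F g' y - F g' us) ≤ C * K * qq g us x j := by
    intro x hx
    rw [hS1, mem_filter] at hx
    have h1 := (hS x hx.1).ge hg hc hε hy
    rw [rs_split g us x j, F_split g j y, F_split g j us, ← hg', ← hC] at h1
    have h2 := h0 x hx.1
    have h3 : mm g us x j = inc (g j) (x j) := by unfold mm; rw [if_pos h2.1]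
    rw [h3] at h1
    have hq := (hS x hx.1).qq_pos hg hc hε j
    have h4 : inc (g j) (x j) * qq g us x j * C ≤ K * g j (y j) * qq g us x j * C :=
      mul_le_mul_of_nonneg_right (mul_le_mul_of_nonneg_right h2.2.2.2 hq.le) hC0.le
    have h5 : g j (us j) * F g' us ≤ g j (y j) * F g' us :=
      mul_le_mul_of_nonneg_right (hg.mono j (meet_le hY hy j)) (hgg.F_nonneg us)
    have h6 : g j (y j) * (ε * (F g' y - F g' us)) ≤ g j (y j) * (C * K * qq g us x j) := by
      have h7 : ε * (g j (us j) * F g' us) ≤ ε * (g j (y j) * F g' us) :=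
        mul_le_mul_of_nonneg_left h5 hε.le
      nlinarith [h1, h4, h7]
    exact le_of_mul_le_mul_left h6 hg0
  have hc1 : (S1.card : ℝ) ≤ C * K / ε := by
    rcases S1.eq_empty_or_nonempty with he | he
    · rw [he, card_empty, Nat.cast_zero]; positivity
    · have h1 : 0 < ∑ x ∈ S1, qq g us x j := sum_pos (fun x hx => by
        rw [hS1, mem_filter] at hx; exact (hS x hx.1).qq_pos hg hc hε j) he
      have h2 : 0 < F g' y - F g' us := lt_of_lt_of_le h1 hsum
      have h3 := sum_le_sum hge
      rw [sum_const, nsmul_eq_mul, ← mul_sum] at h3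
      have h4 : (S1.card : ℝ) * (ε * (F g' y - F g' us)) ≤ C * K * (F g' y - F g' us) :=
        h3.trans (mul_le_mul_of_nonneg_left hsum (by positivity))
      rw [le_div_iff₀ hε]
      exact le_of_mul_le_mul_right (by linarith) h2
  have h5 : (S.card : ℝ) = S0.card + S1.card := by rw [← hcard]; push_cast; rfl
  have h6 : (S0.card : ℝ) ≤ 1 := by exact_mod_cast hc0
  rw [h5]
  linarith

/-- the levels of the coordinate `i` with a jump by a factor at least `p / q` -/
noncomputable def cand (g : Fin n → ℕ → ℝ) (us y : Fin n → ℕ) (p q : ℝ) (i : Fin n) : Finset ℕ :=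
  (Ioc (us i) (y i)).filter fun s => p * g i (s - 1) ≤ inc (g i) s * q

/-- points whose essential coordinates are at big jumps -/
theorem card_two (hg : Good g) (hc : ∀ y ∈ Y, 1 ≤ c y) (hε : 0 < ε) {S : Finset (Fin n → ℕ)}
    (hS : ∀ x ∈ S, Big Y hY u g c ε x)
    {y : Fin n → ℕ} (hy : y ∈ Y) {j : Fin n} (hg0 : 0 < g j (y j))
    (h0 : ∀ x ∈ S, meet Y hY j < x j ∧ x j = y j + 1 ∧ (∀ i, i ≠ j → x i ≤ y i) ∧
      ((∑ y ∈ Y, c y) / ε + 1) * g j (y j) < inc (g j) (x j) ∧
      ∀ i, meet Y hY i < x i → inc (g j) (x j) * g i (x i - 1) ≤ inc (g i) (x i) * g j (y j)) :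
    (S.card : ℝ) ≤ n * (Y.card + 1) := by
  set us := meet Y hY with hus
  set C := ∑ y ∈ Y, c y with hC
  have hC0 : 0 < C := sum_pos (fun y hy => by linarith [hc y hy]) hY
  set K := C / ε + 1 with hK
  have hK1 : 1 ≤ K := by rw [hK]; linarith [div_pos hC0 hε]
  set p := inc (g j) (y j + 1) with hp
  set q := g j (y j) with hq
  set cd := cand g us y p q with hcd
  set ref : Fin n → ℕ := fun i => if h : (cd i).Nonempty then (cd i).max' h else u i with href
  set ref' := Function.update ref j (y j + 1) with href'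
  have huy : ∀ i, us i ≤ y i := fun i => meet_le hY hy i
  have hup : ∀ x ∈ S, ∀ i, i ≠ j → x i ≠ ref i → ∃ t ∈ cd i, x i < t := by
    intro x hx i hi hne
    obtain ⟨-, h2, h3, -, h5⟩ := h0 x hx
    by_cases h6 : us i < x i
    · have h7 : x i ∈ cd i := by
        rw [hcd]; unfold cand
        rw [mem_filter, mem_Ioc]
        refine ⟨⟨h6, h3 i hi⟩, ?_⟩
        have := h5 i h6
        rwa [h2] at this
      have hne2 : (cd i).Nonempty := ⟨_, h7⟩
      have h8 : ref i = (cd i).max' hne2 := by rw [href]; simp only [dif_pos hne2]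
      refine ⟨ref i, by rw [h8]; exact max'_mem _ _, ?_⟩
      refine lt_of_le_of_ne ?_ hne
      rw [h8]; exact le_max' _ _ h7
    · have h7 := (hS x hx).adm.base hY h6
      by_cases hne2 : (cd i).Nonempty
      · obtain ⟨t, ht⟩ := hne2
        refine ⟨t, ht, ?_⟩
        rw [hcd] at ht; unfold cand at ht
        rw [mem_filter, mem_Ioc] at ht
        omega
      · exfalso
        apply hne
        rw [href]; simp only [dif_neg hne2]; exact h7
  have hF : ∀ x ∈ S, F g y < K * (p * qq g us x j) := by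
    intro x hx
    obtain ⟨h1, h2, h3, h4, h5⟩ := h0 x hx
    have h6 := (hS x hx).ge hg hc hε hy
    have hm : mm g us x j = p := by unfold mm; rw [if_pos h1, h2]
    rw [rs_split g us x j, hm] at h6
    have h7 : F g us ≤ rs g us x := by
      unfold F rs
      refine prod_le_prod (fun i _ => hg.nn i _) fun i _ => ?_
      unfold mm
      split_ifs with h8
      · have h9 := h5 i h8
        rw [h2] at h4 h9
        have h10 : g i (us i) ≤ g i (x i - 1) := hg.mono i (by omega)
        have h11 : q * g i (x i - 1) ≤ q * inc (g i) (x i) := by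
          have h12 : q * g i (x i - 1) ≤ K * q * g i (x i - 1) := by
            have := hg.nn i (x i - 1)
            have h13 : 0 ≤ q * g i (x i - 1) := mul_nonneg hg0.le this
            nlinarith
          have h14 : K * q * g i (x i - 1) ≤ p * g i (x i - 1) :=
            mul_le_mul_of_nonneg_right h4.le (hg.nn i _)
          linarith
        exact h10.trans (le_of_mul_le_mul_left h11 hg0)
      · exact le_refl _
    rw [rs_split g us x j, hm] at h7
    have h8 : ε * F g y < ε * (K * (p * qq g us x j)) := by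
      have h9 : ε * K = C + ε := by rw [hK]; field_simp
      have h10 : ε * F g us ≤ ε * (p * qq g us x j) := mul_le_mul_of_nonneg_left h7 hε.le
      have h11 : ε * (K * (p * qq g us x j)) = (C + ε) * (p * qq g us x j) := by
        rw [← mul_assoc, h9]
      rw [← hus, ← hC] at h6
      rw [h11]
      linarith
    exact lt_of_mul_lt_mul_left h8 hε.le
  have huniq : ∀ x ∈ S, ∀ a b, a ≠ j → b ≠ j → a ≠ b → x a ≠ ref a → x b ≠ ref b → False := by
    intro x hx a b ha hb hab hxa hxb
    obtain ⟨h1, h2, h3, h4, h5⟩ := h0 x hx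
    rw [h2] at h4
    have hmp := fun i => (hS x hx).mm_pos hg hc hε i
    have hp0 : 0 < p := lt_trans (mul_pos (by linarith) hg0) h4
    have hfac : ∀ i, i ≠ j → x i ≠ ref i → p * mm g us x i ≤ g i (y i) * q := by
      intro i hi hxi
      obtain ⟨t, ht, hlt⟩ := hup x hx i hi hxi
      rw [hcd] at ht; unfold cand at ht
      rw [mem_filter, mem_Ioc] at ht
      have h6 : mm g us x i ≤ g i (t - 1) := by
        unfold mm
        split_ifs with h7
        · exact (inc_le (hg.nn i) _).trans (hg.mono i (by omega))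
        · exact hg.mono i (by omega)
      have h8 : inc (g i) t ≤ g i (y i) := (inc_le (hg.nn i) _).trans (hg.mono i ht.1.2)
      calc p * mm g us x i ≤ p * g i (t - 1) := mul_le_mul_of_nonneg_left h6 hp0.le
        _ ≤ inc (g i) t * q := ht.2
        _ ≤ g i (y i) * q := mul_le_mul_of_nonneg_right h8 hg0.le
    have hle : ∀ i, i ≠ j → mm g us x i ≤ g i (y i) := by
      intro i hi
      unfold mm
      split_ifs with h7
      · exact (inc_le (hg.nn i) _).trans (hg.mono i (h3 i hi))
      · exact hg.mono i (huy i)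
    have hprod : (p * p) * qq g us x j ≤ (q * q) * ∏ i ∈ univ.erase j, g i (y i) := by
      have ha' : a ∈ univ.erase j := mem_erase.2 ⟨ha, mem_univ _⟩
      have hb' : b ∈ (univ.erase j).erase a := mem_erase.2 ⟨hab.symm, mem_erase.2 ⟨hb, mem_univ _⟩⟩
      unfold qq
      rw [← mul_prod_erase _ _ ha', ← mul_prod_erase _ _ hb', ← mul_prod_erase _ (fun i => g i (y i)) ha',
        ← mul_prod_erase _ (fun i => g i (y i)) hb']
      have h6 : ∏ i ∈ ((univ.erase j).erase a).erase b, mm g us x i ≤
          ∏ i ∈ ((univ.erase j).erase a).erase b, g i (y i) :=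
        prod_le_prod (fun i _ => (hmp i).le) fun i hi =>
          hle i (ne_of_mem_erase (mem_of_mem_erase (mem_of_mem_erase hi)))
      have h7 : (p * mm g us x a) * (p * mm g us x b) ≤ (g a (y a) * q) * (g b (y b) * q) :=
        mul_le_mul (hfac a ha hxa) (hfac b hb hxb) (mul_nonneg hp0.le (hmp b).le)
          (mul_nonneg (hg.nn _ _) hg0.le)
      have h8 := mul_le_mul h7 h6 (prod_nonneg fun i _ => (hmp i).le)
        (mul_nonneg (mul_nonneg (hg.nn _ _) hg0.le) (mul_nonneg (hg.nn _ _) hg0.le))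
      linarith
    have h6 := hF x hx
    rw [F_split g j y, F_upd] at h6
    have hqp := (hS x hx).qq_pos hg hc hε j
    have h7 : q * (q * ∏ i ∈ univ.erase j, g i (y i)) < q * (K * (p * qq g us x j)) :=
      mul_lt_mul_of_pos_left h6 hg0
    have h8 : q * (K * (p * qq g us x j)) ≤ p * p * qq g us x j := by
      have h9 : K * q * (p * qq g us x j) ≤ p * (p * qq g us x j) :=
        mul_le_mul_of_nonneg_right h4.le (mul_pos hp0 hqp).le
      linarith
    linarith
  have hsub : S ⊆ univ.biUnion fun i => (insert (u i) (Y.image fun y' => y' i + 1)).image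
      fun v => Function.update ref' i v := by
    intro x hx
    rw [mem_biUnion]
    obtain ⟨h1, h2, h3, h4, h5⟩ := h0 x hx
    by_cases h6 : ∀ i, i ≠ j → x i = ref i
    · refine ⟨j, mem_univ _, ?_⟩
      rw [mem_image]
      refine ⟨y j + 1, mem_insert_of_mem (mem_image_of_mem _ hy), ?_⟩
      funext i
      by_cases hi : i = j
      · subst hi; rw [Function.update_self, h2]
      · rw [Function.update_of_ne hi, href', Function.update_of_ne hi, h6 i hi]
    · push Not at h6
      obtain ⟨a, ha, hxa⟩ := h6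
      refine ⟨a, mem_univ _, ?_⟩
      rw [mem_image]
      refine ⟨x a, ?_, ?_⟩
      · by_cases h7 : u a < x a
        · obtain ⟨y', hy', h8, -⟩ := (hS x hx).adm.ex h7
          exact mem_insert_of_mem (mem_image.2 ⟨y', hy', h8⟩)
        · have h8 : u a ≤ x a := (hS x hx).adm.le a
          rw [mem_insert]; left; omega
      · funext i
        by_cases hi : i = a
        · subst hi; rw [Function.update_self]
        · rw [Function.update_of_ne hi, href']
          by_cases hij : i = j
          · subst hij; rw [Function.update_self, h2]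
          · rw [Function.update_of_ne hij]
            by_contra h9
            exact huniq x hx a i ha hij (fun h => hi h.symm) hxa (fun h => h9 h.symm)
  have h1 : S.card ≤ n * (Y.card + 1) := by
    refine (card_le_card hsub).trans (card_biUnion_le.trans ?_)
    refine (sum_le_card_nsmul _ _ (Y.card + 1) fun i _ => ?_).trans (by simp)
    exact card_image_le.trans ((card_insert_le _ _).trans (Nat.add_le_add_right card_image_le 1))
  exact_mod_cast h1

/-- There are few points with a large essential part. -/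
theorem card_big (hg : Good g) (hc : ∀ y ∈ Y, 1 ≤ c y) (hε : 0 < ε) {S : Finset (Fin n → ℕ)}
    (hS : ∀ x ∈ S, Big Y hY u g c ε x) (hu : ∀ y ∈ Y, u ≤ y) :
    (S.card : ℝ) ≤ 1 + Y.card * n *
      (1 + (∑ y ∈ Y, c y) * ((∑ y ∈ Y, c y) / ε + 1) / ε + n * (Y.card + 1)) := by
  set us := meet Y hY with hus
  set C := ∑ y ∈ Y, c y with hC
  have hC0 : 0 < C := sum_pos (fun y hy => by linarith [hc y hy]) hY
  set K := C / ε + 1 with hK
  have hK0 : 0 < K := by rw [hK]; linarith [div_pos hC0 hε]
  set S0 := S.filter (fun x => ∀ j, us j < x j → g j (x j - 1) = 0) with hS0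
  set T1 : (Fin n → ℕ) × Fin n → Finset (Fin n → ℕ) := fun p => S.filter fun x =>
    0 < g p.2 (p.1 p.2) ∧ us p.2 < x p.2 ∧ x p.2 = p.1 p.2 + 1 ∧ (∀ i, i ≠ p.2 → x i ≤ p.1 i) ∧
      inc (g p.2) (x p.2) ≤ K * g p.2 (p.1 p.2) with hT1
  set T2 : (Fin n → ℕ) × Fin n → Finset (Fin n → ℕ) := fun p => S.filter fun x =>
    0 < g p.2 (p.1 p.2) ∧ us p.2 < x p.2 ∧ x p.2 = p.1 p.2 + 1 ∧ (∀ i, i ≠ p.2 → x i ≤ p.1 i) ∧
      K * g p.2 (p.1 p.2) < inc (g p.2) (x p.2) ∧
      ∀ i, us i < x i →
        inc (g p.2) (x p.2) * g i (x i - 1) ≤ inc (g i) (x i) * g p.2 (p.1 p.2) with hT2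
  have hsub : S ⊆ S0 ∪ (Y ×ˢ univ).biUnion fun p => T1 p ∪ T2 p := by
    intro x hx
    by_cases h0 : ∀ j, us j < x j → g j (x j - 1) = 0
    · exact mem_union_left _ (mem_filter.2 ⟨hx, h0⟩)
    · refine mem_union_right _ ?_
      push Not at h0
      obtain ⟨j0, h1, h2⟩ := h0
      set J := univ.filter (fun j => us j < x j ∧ g j (x j - 1) ≠ 0) with hJ
      obtain ⟨j, hj, hmin⟩ := exists_min_image J (fun j => inc (g j) (x j) / g j (x j - 1))
        ⟨j0, mem_filter.2 ⟨mem_univ _, h1, h2⟩⟩
      rw [hJ, mem_filter] at hj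
      obtain ⟨-, hj1, hj2⟩ := hj
      have huj : u j ≤ us j := le_meet hY hu j
      obtain ⟨y, hy, hy1, hy2⟩ := (hS x hx).adm.ex (lt_of_le_of_lt huj hj1)
      have hyj : x j - 1 = y j := by omega
      rw [hyj] at hj2 hmin
      have hg0 : 0 < g j (y j) := lt_of_le_of_ne (hg.nn _ _) (Ne.symm hj2)
      rw [mem_biUnion]
      refine ⟨(y, j), mem_product.2 ⟨hy, mem_univ _⟩, ?_⟩
      rw [mem_union]
      by_cases h3 : inc (g j) (x j) ≤ K * g j (y j)
      · left
        exact mem_filter.2 ⟨hx, hg0, hj1, hy1.symm, hy2, h3⟩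
      · right
        refine mem_filter.2 ⟨hx, hg0, hj1, hy1.symm, hy2, not_le.1 h3, fun i hi => ?_⟩
        by_cases h4 : g i (x i - 1) = 0
        · rw [h4, mul_zero]
          exact mul_nonneg (inc_nonneg (hg.nn _) (hg.mono _) _) hg0.le
        · have h5 := hmin i (mem_filter.2 ⟨mem_univ _, hi, h4⟩)
          have h6 : 0 < g i (x i - 1) := lt_of_le_of_ne (hg.nn _ _) (Ne.symm h4)
          rwa [div_le_div_iff₀ hg0 h6] at h5
  have hb0 : (S0.card : ℝ) ≤ 1 := by
    exact_mod_cast card_inf hg hc hε (S := S0) (fun x hx => hS x (mem_filter.1 hx).1)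
      (fun x hx => (mem_filter.1 hx).2)
  have hb : ∀ p ∈ Y ×ˢ (univ : Finset (Fin n)),
      (((T1 p ∪ T2 p).card : ℕ) : ℝ) ≤ 1 + C * K / ε + n * (Y.card + 1) := by
    intro p hp
    rw [mem_product] at hp
    have h1 : (((T1 p ∪ T2 p).card : ℕ) : ℝ) ≤ (T1 p).card + (T2 p).card := by
      exact_mod_cast card_union_le _ _
    by_cases hg0 : 0 < g p.2 (p.1 p.2)
    · have h2 : ((T1 p).card : ℝ) ≤ 1 + C * K / ε :=
        card_one hg hc hε (S := T1 p) (fun x hx => hS x (mem_filter.1 hx).1) hp.1 hK0 hg0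
          (fun x hx => (mem_filter.1 hx).2.2)
      have h3 : ((T2 p).card : ℝ) ≤ n * (Y.card + 1) :=
        card_two hg hc hε (S := T2 p) (fun x hx => hS x (mem_filter.1 hx).1) hp.1 hg0
          (fun x hx => (mem_filter.1 hx).2.2)
      linarith
    · have h2 : T1 p = ∅ := by
        rw [hT1]; exact filter_false_of_mem fun x _ h => hg0 h.1
      have h3 : T2 p = ∅ := by
        rw [hT2]; exact filter_false_of_mem fun x _ h => hg0 h.1
      rw [h2, h3]
      simp only [union_empty, card_empty, Nat.cast_zero]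
      positivity
  have h1 : (S.card : ℝ) ≤ S0.card + ∑ p ∈ Y ×ˢ (univ : Finset (Fin n)),
      (((T1 p ∪ T2 p).card : ℕ) : ℝ) := by
    have h2 := (card_le_card hsub).trans ((card_union_le _ _).trans
      (Nat.add_le_add_left card_biUnion_le _))
    exact_mod_cast h2
  have h2 := sum_le_sum hb
  rw [sum_const, nsmul_eq_mul, card_product, card_univ, Fintype.card_fin] at h2
  push_cast at h2
  linarith

end

end Pool.Agent.N599.MD
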