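import Pool.Agent.N599.MD.Step
import Pool.Agent.N599.MD.Count

/-!
# The recursion
-/

set_option autoImplicit false

namespace Pool.Agent.N599.MD

open Finset Classical

variable {n : ℕ}

/-- `x` is a minimal point among the points which are below no point of `Y` -/
structure MinND (Y : Finset (Fin n → ℕ)) (x : Fin n → ℕ) : Prop where
  nd : ∀ y ∈ Y, ¬ x ≤ y
  mn : ∀ z, z ≤ x → (∀ y ∈ Y, ¬ z ≤ y) → z = x

theorem MinND.adm {Y : Finset (Fin n → ℕ)} {x u : Fin n → ℕ} (h : MinND Y x) (hu : u ≤ x) :
    Adm (Y.filter (u ≤ ·)) u x where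
  le := hu
  nd y hy := h.nd y (mem_filter.1 hy).1
  mn z huz hzx hz := h.mn z hzx fun y hy hzy => hz y (mem_filter.2 ⟨hy, huz.trans hzy⟩) hzy

/-- one of two weights -/
noncomputable def wt (w : (Fin n → ℕ) → ℝ) (b : Bool) (y : Fin n → ℕ) : ℝ := if b then w y else 1

/-- the bound for the number of points with a large essential part -/
noncomputable def s1 (n m : ℕ) (R : ℝ) : ℝ :=
  1 + m * n * (1 + (m * R) * ((m * R) * (m + 1) + 1) * (m + 1) + n * (m + 1))

theorem core {ι : Type*} [Fintype ι] {Y X : Finset (Fin n → ℕ)} (hYne : Y.Nonempty)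
    (hX : ∀ x ∈ X, MinND Y x) {g : ι → Fin n → ℕ → ℝ} (hg : ∀ h, Good (g h))
    {w : (Fin n → ℕ) → ℝ} {R : ℝ} (hR1 : 1 ≤ R) (hw : ∀ y ∈ Y, 1 ≤ w y) (hR : ∀ y ∈ Y, w y ≤ R)
    {k : ι → Bool}
    (A : ∀ X' ⊆ X, X'.Nonempty → ∀ Y' ⊆ Y, Y'.Nonempty → ∃ h,
      (X'.card : ℝ) * ∑ y ∈ Y', wt w (k h) y * F (g h) y <
        (∑ y ∈ Y', wt w (k h) y) * ∑ x ∈ X', F (g h) x) :
    (X.card : ℝ) ≤ Fintype.card ι * s1 n Y.card R * Y.card * 3 * (Y.card * (Y.card * R)) := by
  set m := Y.card with hm
  have hm1 : 1 ≤ m := card_pos.2 hYne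
  have hm1' : (1 : ℝ) ≤ m := by exact_mod_cast hm1
  set ε : ℝ := 1 / (m + 1) with hε
  have hε0 : 0 < ε := by positivity
  set a : ℝ := 1 + 1 / m with ha
  have ha1 : 1 ≤ a := by rw [ha]; have : (0 : ℝ) ≤ 1 / m := by positivity
                         linarith
  have hεa : (1 - ε) * a = 1 := by
    rw [hε, ha]; field_simp; ring
  set s : ℝ := Fintype.card ι * s1 n m R with hs
  have hs10 : 0 ≤ s1 n m R := by unfold s1; positivity
  have hs0 : 0 ≤ s := by rw [hs]; positivity
  have hwt : ∀ b, ∀ y ∈ Y, 1 ≤ wt w b y := by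
    intro b y hy; unfold wt; split_ifs
    · exact hw y hy
    · exact le_refl _
  have hwtR : ∀ b, ∀ y ∈ Y, wt w b y ≤ R := by
    intro b y hy; unfold wt; split_ifs
    · exact hR y hy
    · exact hR1
  have main : ∀ r : ℕ, ∀ u : Fin n → ℕ, (Y.filter (u ≤ ·)).card = r → 1 ≤ r →
      ((X.filter (u ≤ ·)).card : ℝ) ≤ s * r * a ^ r * (r * ∑ y ∈ Y.filter (u ≤ ·), w y) := by
    intro r
    induction r using Nat.strong_induction_on with
    | _ r ih =>
    intro u hr hr1
    set Yu := Y.filter (u ≤ ·) with hYu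
    set Xu := X.filter (u ≤ ·) with hXu
    have hne : Yu.Nonempty := card_pos.1 (by omega)
    have huY : ∀ y ∈ Yu, u ≤ y := fun y hy => (mem_filter.1 hy).2
    have hadm : ∀ x ∈ Xu, Adm Yu u x := fun x hx =>
      (hX x (mem_filter.1 hx).1).adm (mem_filter.1 hx).2
    set W := ∑ y ∈ Yu, w y with hW
    have hrm : r ≤ m := by rw [← hr, hm]; exact card_filter_le _ _
    have hr1' : (1 : ℝ) ≤ r := by exact_mod_cast hr1
    have hW1 : (r : ℝ) ≤ W := by
      rw [hW, ← hr]
      have := sum_le_sum fun y (hy : y ∈ Yu) => hw y (mem_filter.1 hy).1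
      simpa using this
    have har : 1 ≤ a ^ r := one_le_pow₀ ha1
    set S := Xu.filter (fun x => ∃ h, Big Yu hne u (g h) (wt w (k h)) ε x) with hS
    set X' := Xu.filter (fun x => ¬ ∃ h, Big Yu hne u (g h) (wt w (k h)) ε x) with hX'
    have hcard : S.card + X'.card = Xu.card := card_filter_add_card_filter_not _
    have hSc : (S.card : ℝ) ≤ s := by
      have h1 : S ⊆ univ.biUnion fun h => Xu.filter (fun x =>
          Big Yu hne u (g h) (wt w (k h)) ε x) := by
        intro x hx
        rw [hS, mem_filter] at hx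
        obtain ⟨hx1, h, hx2⟩ := hx
        exact mem_biUnion.2 ⟨h, mem_univ _, mem_filter.2 ⟨hx1, hx2⟩⟩
      have h2 : ∀ h ∈ (univ : Finset ι), (((Xu.filter (fun x =>
          Big Yu hne u (g h) (wt w (k h)) ε x)).card : ℕ) : ℝ) ≤ s1 n m R := by
        intro h _
        refine (card_big (hg h) (fun y hy => hwt _ y (mem_filter.1 hy).1) hε0
          (fun x hx => (mem_filter.1 hx).2) huY).trans ?_
        set C := ∑ y ∈ Yu, wt w (k h) y with hC
        have hC0 : 0 ≤ C := sum_nonneg fun y hy => by
          linarith [hwt (k h) y (mem_filter.1 hy).1]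
        have hCR : C ≤ m * R := by
          have h3 := sum_le_sum fun y (hy : y ∈ Yu) => hwtR (k h) y (mem_filter.1 hy).1
          rw [sum_const, nsmul_eq_mul, hr] at h3
          have h4 : (r : ℝ) ≤ m := by exact_mod_cast hrm
          have h5 : (r : ℝ) * R ≤ m * R := mul_le_mul_of_nonneg_right h4 (by linarith)
          linarith
        have h6 : C / ε = C * (m + 1) := by rw [hε]; field_simp
        have h7 : C * (C / ε + 1) / ε = C * (C * (m + 1) + 1) * (m + 1) := by
          rw [h6, hε]; field_simp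
        rw [h7, hr]
        unfold s1
        have h8 : (r : ℝ) ≤ m := by exact_mod_cast hrm
        gcongr
      have h3 := (card_le_card h1).trans card_biUnion_le
      have h4 : (S.card : ℝ) ≤ ∑ h : ι, (((Xu.filter (fun x =>
          Big Yu hne u (g h) (wt w (k h)) ε x)).card : ℕ) : ℝ) := by exact_mod_cast h3
      refine h4.trans ((sum_le_sum h2).trans ?_)
      rw [sum_const, nsmul_eq_mul, card_univ]
    have hXle : (X'.card : ℝ) ≤ s * a ^ r * (r - 1) * (r * W) := by
      rcases X'.eq_empty_or_nonempty with he | he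
      · rw [he, card_empty, Nat.cast_zero]
        have : (0 : ℝ) ≤ r - 1 := by linarith
        have : 0 ≤ W := by linarith
        positivity
      · obtain ⟨h, hA⟩ := A X' ((filter_subset _ _).trans (filter_subset _ _)) he Yu
          (filter_subset _ _) hne
        have hbig : ∀ x ∈ X', rs (g h) (meet Yu hne) x * ∑ y ∈ Yu, wt w (k h) y ≤
            ε * ∑ y ∈ Yu, wt w (k h) y * (F (g h) y - F (g h) (meet Yu hne)) := by
          intro x hx
          rw [hX', mem_filter] at hx
          by_contra hlt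
          exact hx.2 ⟨h, hadm x hx.1, not_le.1 hlt⟩
        obtain ⟨z, hz1, ⟨y1, hy1, hzy1⟩, hz3⟩ := step hne huY
          (fun x hx => hadm x (mem_filter.1 hx).1) (hg h)
          (fun y hy => by linarith [hwt (k h) y (mem_filter.1 hy).1]) hbig hA
        set Y2 := Y.filter (u ⊔ z ≤ ·) with hY2
        have hY2e : Yu.filter (z ≤ ·) = Y2 := by
          rw [hYu, hY2, filter_filter]
          refine filter_congr fun y _ => ?_
          exact sup_le_iff.symm
        rw [hY2e] at hz3
        have hr2 : Y2.card < r := by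
          rw [← hr, ← hY2e]
          refine card_lt_card (filter_ssubset.2 ?_)
          by_contra hcc
          push Not at hcc
          exact hz1 (le_meet hne hcc)
        have hr2' : 1 ≤ Y2.card := by
          rw [← hY2e]
          exact card_pos.2 ⟨y1, mem_filter.2 ⟨hy1, hzy1⟩⟩
        have ih1 := ih Y2.card hr2 (u ⊔ z) rfl hr2'
        have hsub : X'.filter (z ≤ ·) ⊆ X.filter (u ⊔ z ≤ ·) := by
          intro x hx
          rw [mem_filter, hX', mem_filter, hXu, mem_filter] at hx
          exact mem_filter.2 ⟨hx.1.1.1, sup_le hx.1.1.2 hx.2⟩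
        have hc1 : ((X'.filter (z ≤ ·)).card : ℝ) ≤ (X.filter (u ⊔ z ≤ ·)).card := by
          exact_mod_cast card_le_card hsub
        set r2 := Y2.card with hr2def
        set W2 := ∑ y ∈ Y2, w y with hW2
        set C := ∑ y ∈ Yu, wt w (k h) y with hC
        set C2 := ∑ y ∈ Y2, wt w (k h) y with hC2
        have hY2Y : Y2 ⊆ Yu := by rw [← hY2e]; exact filter_subset _ _
        have hr2p : (1 : ℝ) ≤ r2 := by exact_mod_cast hr2'
        have hW2p : (r2 : ℝ) ≤ W2 := by
          rw [hW2, hr2def]
          have := sum_le_sum fun y (hy : y ∈ Y2) => hw y (mem_filter.1 hy).1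
          simpa using this
        have hW2W : W2 ≤ W := sum_le_sum_of_subset_of_nonneg hY2Y fun y hy _ => by
          linarith [hw y (mem_filter.1 hy).1]
        have hr2r : (r2 : ℝ) ≤ r - 1 := by
          have : r2 + 1 ≤ r := hr2
          have : ((r2 + 1 : ℕ) : ℝ) ≤ r := by exact_mod_cast this
          push_cast at this; linarith
        have hC2p : 0 < C2 := sum_pos (fun y hy => by linarith [hwt (k h) y (mem_filter.1 hy).1])
          (card_pos.1 hr2')
        have hC0 : 0 ≤ C := sum_nonneg fun y hy => by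
          linarith [hwt (k h) y (mem_filter.1 hy).1]
        -- comparison of the weights
        have hcmp : C * (r2 * W2) ≤ C2 * (r * W) := by
          rcases hk : k h with _ | _
          · have e1 : C = r := by
              rw [hC, hk]; simp [wt, hr]
            have e2 : C2 = r2 := by
              rw [hC2, hk]; simp [wt, hr2def]
            rw [e1, e2]
            have : (r2 : ℝ) * r * W2 ≤ r2 * r * W :=
              mul_le_mul_of_nonneg_left hW2W (by positivity)
            linarith
          · have e1 : C = W := by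
              rw [hC, hk]; simp [wt, hW]
            have e2 : C2 = W2 := by
              rw [hC2, hk]; simp [wt, hW2]
            rw [e1, e2]
            have h5 : (r2 : ℝ) ≤ r := by linarith
            have h6 : 0 ≤ W2 * W := mul_nonneg (by linarith) (by linarith)
            have : (r2 : ℝ) * (W2 * W) ≤ r * (W2 * W) := mul_le_mul_of_nonneg_right h5 h6
            linarith
        have ha0 : 0 < a := by linarith
        have h1 : (1 - ε) * X'.card * C2 ≤ C * (s * r2 * a ^ r2 * (r2 * W2)) :=
          hz3.le.trans (mul_le_mul_of_nonneg_left (hc1.trans ih1) hC0)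
        have h2 : C * (s * r2 * a ^ r2 * (r2 * W2)) ≤ C2 * (s * r2 * a ^ r2 * (r * W)) := by
          have h3 : 0 ≤ s * r2 * a ^ r2 := by positivity
          have := mul_le_mul_of_nonneg_left hcmp h3
          linarith
        have h3 : (1 - ε) * X'.card ≤ s * r2 * a ^ r2 * (r * W) := by
          have h4 : ((1 - ε) * X'.card) * C2 ≤ (s * r2 * a ^ r2 * (r * W)) * C2 := by linarith
          exact le_of_mul_le_mul_right h4 hC2p
        have h4 : (X'.card : ℝ) ≤ a * (s * r2 * a ^ r2 * (r * W)) := by
          have h5 := mul_le_mul_of_nonneg_left h3 ha0.le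
          have h6 : a * ((1 - ε) * X'.card) = X'.card := by
            rw [← mul_assoc, mul_comm a, hεa, one_mul]
          linarith
        have hrW : 0 ≤ (r : ℝ) * W := mul_nonneg (by linarith) (by linarith)
        have h5 : a * (s * r2 * a ^ r2 * (r * W)) = s * r2 * a ^ (r2 + 1) * (r * W) := by
          rw [pow_succ]; ring
        have h6 : a ^ (r2 + 1) ≤ a ^ r := pow_le_pow_right₀ ha1 hr2
        have h7 : s * r2 * a ^ (r2 + 1) * (r * W) ≤ s * (r - 1) * a ^ r * (r * W) := by
          have : (0 : ℝ) ≤ r - 1 := by linarith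
          gcongr
        linarith
    have hc2 : (Xu.card : ℝ) = S.card + X'.card := by rw [← hcard]; push_cast; rfl
    rw [hc2]
    have h1 : 1 ≤ a ^ r * (r * W) := by
      have h2 : (1 : ℝ) ≤ r * W := by nlinarith
      nlinarith
    have h2 : s ≤ s * (a ^ r * (r * W)) := le_mul_of_one_le_right hs0 h1
    nlinarith
  have h0 : Y.filter ((0 : Fin n → ℕ) ≤ ·) = Y := filter_true_of_mem fun y _ i => Nat.zero_le _
  have h0' : X.filter ((0 : Fin n → ℕ) ≤ ·) = X := filter_true_of_mem fun y _ i => Nat.zero_le _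
  have h1 := main m 0 (by rw [h0]) hm1
  rw [h0, h0'] at h1
  have hWR : ∑ y ∈ Y, w y ≤ m * R := by
    have h3 := sum_le_sum hR
    rw [sum_const, nsmul_eq_mul] at h3
    exact h3
  have ham : a ^ m ≤ 3 := by
    have h2 : a ≤ Real.exp (1 / m) := by
      rw [ha]; have := Real.add_one_le_exp (1 / (m : ℝ)); linarith
    have h3 : a ^ m ≤ Real.exp (1 / m) ^ m := pow_le_pow_left₀ (by linarith) h2 m
    rw [← Real.exp_nat_mul] at h3
    have h4 : (m : ℝ) * (1 / m) = 1 := by field_simp
    rw [h4] at h3
    linarith [Real.exp_one_lt_d9]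
  refine h1.trans ?_
  have hW0 : 0 ≤ ∑ y ∈ Y, w y := sum_nonneg fun y hy => by linarith [hw y hy]
  gcongr

end Pool.Agent.N599.MD
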