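import Mathlib

/-!
# Products of monotone functions on the lattice `Fin n → ℕ`
-/

set_option autoImplicit false

namespace Pool.Agent.N599.MD

open Finset

variable {n : ℕ}

/-- The increments of a function on the natural numbers. -/
def inc (f : ℕ → ℝ) (s : ℕ) : ℝ := if s = 0 then f 0 else f s - f (s - 1)

theorem inc_nonneg {f : ℕ → ℝ} (h0 : ∀ s, 0 ≤ f s) (hm : Monotone f) (s : ℕ) : 0 ≤ inc f s := by
  unfold inc; split_ifs with h
  · exact h0 0
  · exact sub_nonneg.2 (hm (Nat.sub_le s 1))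

theorem sum_inc (f : ℕ → ℝ) (s : ℕ) : ∑ k ∈ range (s + 1), inc f k = f s := by
  induction s with
  | zero => simp [inc]
  | succ s ih => rw [sum_range_succ, ih]; simp [inc]

theorem inc_le {f : ℕ → ℝ} (h0 : ∀ s, 0 ≤ f s) (s : ℕ) : inc f s ≤ f s := by
  unfold inc; split_ifs with h
  · rw [h]
  · linarith [h0 (s - 1)]

theorem inc_pos_eq (f : ℕ → ℝ) {s : ℕ} (h : 0 < s) : f s = inc f s + f (s - 1) := by
  unfold inc; rw [if_neg h.ne']; ring

/-- The points below `x`. -/
def box (x : Fin n → ℕ) : Finset (Fin n → ℕ) := Fintype.piFinset fun i => range (x i + 1)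

theorem mem_box {x z : Fin n → ℕ} : z ∈ box x ↔ z ≤ x := by
  simp [box, Fintype.mem_piFinset, Pi.le_def]

/-- A product of functions of one variable. -/
def F (g : Fin n → ℕ → ℝ) (x : Fin n → ℕ) : ℝ := ∏ i, g i (x i)

/-- The coefficients of the expansion of `F g` in indicators of upper sets. -/
def rho (g : Fin n → ℕ → ℝ) (z : Fin n → ℕ) : ℝ := ∏ i, inc (g i) (z i)

theorem F_eq (g : Fin n → ℕ → ℝ) (x : Fin n → ℕ) : F g x = ∑ z ∈ box x, rho g z := by
  unfold F rho box
  rw [← prod_univ_sum]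
  exact prod_congr rfl fun i _ => (sum_inc _ _).symm

/-- Nonnegative nondecreasing factors. -/
structure Good (g : Fin n → ℕ → ℝ) : Prop where
  nn : ∀ i s, 0 ≤ g i s
  mono : ∀ i, Monotone (g i)

theorem Good.rho_nonneg {g : Fin n → ℕ → ℝ} (hg : Good g) (z : Fin n → ℕ) : 0 ≤ rho g z :=
  prod_nonneg fun i _ => inc_nonneg (hg.nn i) (hg.mono i) _

theorem Good.F_nonneg {g : Fin n → ℕ → ℝ} (hg : Good g) (z : Fin n → ℕ) : 0 ≤ F g z :=
  prod_nonneg fun i _ => hg.nn i _

theorem Good.F_mono {g : Fin n → ℕ → ℝ} (hg : Good g) {x y : Fin n → ℕ} (h : x ≤ y) :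
    F g x ≤ F g y :=
  prod_le_prod (fun i _ => hg.nn i _) fun i _ => hg.mono i (h i)

/-- the meet of the points of `Y` -/
def meet (Y : Finset (Fin n → ℕ)) (hY : Y.Nonempty) : Fin n → ℕ := fun i => Y.inf' hY fun y => y i

theorem meet_le {Y : Finset (Fin n → ℕ)} (hY : Y.Nonempty) {y : Fin n → ℕ} (hy : y ∈ Y) :
    meet Y hY ≤ y := fun i => inf'_le (fun y => y i) hy

theorem le_meet {Y : Finset (Fin n → ℕ)} (hY : Y.Nonempty) {z : Fin n → ℕ}
    (h : ∀ y ∈ Y, z ≤ y) : z ≤ meet Y hY := fun i => le_inf' _ _ fun y hy => h y hy i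

/-- the mass of the atom `x i`, or of the base -/
noncomputable def mm (g : Fin n → ℕ → ℝ) (us x : Fin n → ℕ) (i : Fin n) : ℝ :=
  if us i < x i then inc (g i) (x i) else g i (us i)

/-- the mass of the part of the box of `x` which is essential -/
noncomputable def rs (g : Fin n → ℕ → ℝ) (us x : Fin n → ℕ) : ℝ := ∏ i, mm g us x i

theorem Good.mm_nonneg {g : Fin n → ℕ → ℝ} (hg : Good g) (us x : Fin n → ℕ) (i : Fin n) :
    0 ≤ mm g us x i := by
  unfold mm; split_ifs
  · exact inc_nonneg (hg.nn i) (hg.mono i) _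
  · exact hg.nn i _

theorem Good.rs_nonneg {g : Fin n → ℕ → ℝ} (hg : Good g) (us x : Fin n → ℕ) :
    0 ≤ rs g us x := prod_nonneg fun i _ => hg.mm_nonneg us x i

/-- `x` is above `u`, below no point of `Y`, and minimal with this property -/
structure Adm (Y : Finset (Fin n → ℕ)) (u x : Fin n → ℕ) : Prop where
  le : u ≤ x
  nd : ∀ y ∈ Y, ¬ x ≤ y
  mn : ∀ z, u ≤ z → z ≤ x → (∀ y ∈ Y, ¬ z ≤ y) → z = x

/-- An essential coordinate is blocked by some point of `Y`. -/
theorem Adm.ex {Y : Finset (Fin n → ℕ)} {u x : Fin n → ℕ} (h : Adm Y u x) {j : Fin n}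
    (hj : u j < x j) : ∃ y ∈ Y, y j + 1 = x j ∧ ∀ i, i ≠ j → x i ≤ y i := by
  by_contra hc
  push Not at hc
  have h1 : Function.update x j (x j - 1) = x := by
    apply h.mn
    · intro i
      by_cases hi : i = j
      · subst hi; simp; omega
      · rw [Function.update_of_ne hi]; exact h.le i
    · intro i
      by_cases hi : i = j
      · subst hi; simp
      · rw [Function.update_of_ne hi]
    · intro y hy hle
      have h2 : ∀ i, i ≠ j → x i ≤ y i := by
        intro i hi
        have := hle i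
        rwa [Function.update_of_ne hi] at this
      have h3 : x j - 1 ≤ y j := by
        have := hle j
        rwa [Function.update_self] at this
      have h4 : y j < x j := by
        by_contra h5
        refine h.nd y hy fun i => ?_
        show x i ≤ y i
        by_cases hi : i = j
        · subst hi; omega
        · exact h2 i hi
      obtain ⟨i, hi, hlt⟩ := hc y hy (by omega)
      exact absurd (h2 i hi) (not_le.2 hlt)
  have h2 := congrFun h1 j
  rw [Function.update_self] at h2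
  omega

theorem Adm.ess {Y : Finset (Fin n → ℕ)} (hY : Y.Nonempty) {u x : Fin n → ℕ} (h : Adm Y u x)
    {j : Fin n} (hj : u j < x j) : meet Y hY j < x j := by
  obtain ⟨y, hy, h1, -⟩ := h.ex hj
  have : meet Y hY j ≤ y j := meet_le hY hy j
  omega

theorem Adm.base {Y : Finset (Fin n → ℕ)} (hY : Y.Nonempty) {u x : Fin n → ℕ} (h : Adm Y u x)
    {j : Fin n} (hj : ¬ meet Y hY j < x j) : x j = u j := by
  have h1 : ¬ u j < x j := fun h2 => hj (h.ess hY h2)
  have h2 : u j ≤ x j := h.le j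
  omega

theorem Adm.ess_ne {Y : Finset (Fin n → ℕ)} (hY : Y.Nonempty) {u x : Fin n → ℕ}
    (h : Adm Y u x) (hu : ∀ y ∈ Y, u ≤ y) : ∃ j, meet Y hY j < x j := by
  obtain ⟨y, hy⟩ := hY
  have h1 := h.nd y hy
  rw [Pi.le_def] at h1
  push Not at h1
  obtain ⟨j, hj⟩ := h1
  exact ⟨j, h.ess _ (lt_of_le_of_lt (hu y hy j) hj)⟩

open Classical in
/-- The part of the box of `x` which is below no point of `Y`. -/
theorem Adm.low {Y : Finset (Fin n → ℕ)} (hY : Y.Nonempty) {u x : Fin n → ℕ}
    (h : Adm Y u x) (hu : ∀ y ∈ Y, u ≤ y) {g : Fin n → ℕ → ℝ} (hg : Good g) :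
    ∑ z ∈ (box x).filter (fun z => ∀ y ∈ Y, ¬ z ≤ y), rho g z ≤ rs g (meet Y hY) x := by
  have h1 : rs g (meet Y hY) x = ∑ z ∈ Fintype.piFinset
      (fun i => if meet Y hY i < x i then {x i} else range (meet Y hY i + 1)), rho g z := by
    unfold rs rho
    rw [← prod_univ_sum]
    refine prod_congr rfl fun i _ => ?_
    unfold mm
    split_ifs with hi
    · simp
    · rw [sum_inc]
  rw [h1]
  refine sum_le_sum_of_subset_of_nonneg ?_ fun z _ _ => hg.rho_nonneg z
  intro z hz
  rw [mem_filter, mem_box] at hz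
  obtain ⟨hzx, hz2⟩ := hz
  have h2 : z ⊔ u = x := by
    refine h.mn _ le_sup_right (sup_le hzx h.le) fun y hy hle => hz2 y hy (le_trans le_sup_left hle)
  rw [Fintype.mem_piFinset]
  intro i
  have h3 := congrFun h2 i
  have hui : u i ≤ meet Y hY i := le_meet hY hu i
  rw [Pi.sup_apply] at h3
  split_ifs with hi
  · rw [mem_singleton]
    rcases max_choice (z i) (u i) with h4 | h4
    · rw [← h3]; exact h4.symm
    · rw [show z i ⊔ u i = max (z i) (u i) from rfl, h4] at h3; omega
  · rw [mem_range]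
    have h5 : z i ≤ x i := hzx i
    omega

end Pool.Agent.N599.MD
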