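import Pool.Agent.N599.MD.Sum

/-!
# Second-order cone inequalities
-/

set_option autoImplicit false

namespace Pool.Agent.N599.MD

open Finset Classical

variable {n d : ℕ}

/-- the norm of `A x` -/
noncomputable def nrm (A : Fin d → Fin n → ℝ) (x : Fin n → ℕ) : ℝ :=
  Real.sqrt (∑ i, (∑ j, A i j * x j) ^ 2)

/-- the linear part -/
noncomputable def lin (b : Fin n → ℝ) (x : Fin n → ℕ) : ℝ := ∑ j, b j * x j

/-- the factor `s` at `j` -/
def g1 (j : Fin n) (i : Fin n) (s : ℕ) : ℝ := if i = j then s else 1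

theorem g1_good (j : Fin n) : Good (g1 j) where
  nn i s := by unfold g1; split_ifs <;> positivity
  mono i := by
    intro s s' h
    unfold g1; split_ifs
    · exact_mod_cast h
    · exact le_refl _

theorem F_g1 (j : Fin n) (x : Fin n → ℕ) : F (g1 j) x = x j := by
  unfold F g1
  simp

/-- the product of two factors -/
def g2 (j l : Fin n) (i : Fin n) (s : ℕ) : ℝ := g1 j i s * g1 l i s

theorem g2_good (j l : Fin n) : Good (g2 j l) where
  nn i s := mul_nonneg ((g1_good j).nn i s) ((g1_good l).nn i s)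
  mono i := by
    intro s s' h
    exact mul_le_mul ((g1_good j).mono i h) ((g1_good l).mono i h) ((g1_good l).nn i s)
      ((g1_good j).nn i s')

theorem F_g2 (j l : Fin n) (x : Fin n → ℕ) : F (g2 j l) x = x j * x l := by
  rw [← F_g1 j x, ← F_g1 l x]
  unfold F g2
  rw [prod_mul_distrib]

theorem nrm_sq (A : Fin d → Fin n → ℝ) (x : Fin n → ℕ) :
    nrm A x ^ 2 = ∑ p : Fin n × Fin n, (∑ i, A i p.1 * A i p.2) * F (g2 p.1 p.2) x := by
  unfold nrm
  rw [Real.sq_sqrt (sum_nonneg fun i _ => sq_nonneg _)]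
  rw [Fintype.sum_prod_type]
  have h1 : ∀ i, (∑ j, A i j * (x j : ℝ)) ^ 2 =
      ∑ j, ∑ l, (A i j * x j) * (A i l * x l) := by
    intro i
    rw [pow_two, sum_mul_sum]
  rw [sum_congr rfl fun i _ => h1 i, sum_comm]
  refine sum_congr rfl fun j _ => ?_
  rw [sum_comm]
  refine sum_congr rfl fun l _ => ?_
  rw [F_g2, sum_mul]
  refine sum_congr rfl fun i _ => ?_
  ring

theorem nrm_nonneg (A : Fin d → Fin n → ℝ) (x : Fin n → ℕ) : 0 ≤ nrm A x := Real.sqrt_nonneg _

theorem lin_eq (b : Fin n → ℝ) (x : Fin n → ℕ) : lin b x = ∑ j, b j * F (g1 j) x := by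
  unfold lin
  exact sum_congr rfl fun j _ => by rw [F_g1]

/-- the elementary inequality behind the choice of the weights -/
theorem elem {θ l k : ℝ} (hθ : 0 < θ) (hl : θ ≤ l) (hk : 0 ≤ k) :
    l - k ≤ (1 / (k + max θ k)) * (l ^ 2 - k ^ 2) := by
  have h0 : 0 < k + max θ k := by
    have := le_max_left θ k
    linarith
  rw [one_div, inv_mul_eq_div, le_div_iff₀ h0]
  have h1 : l ^ 2 - k ^ 2 = (l - k) * (l + k) := by ring
  rw [h1]
  rcases le_total k l with h | h
  · refine mul_le_mul_of_nonneg_left ?_ (sub_nonneg.2 h)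
    have : max θ k ≤ l := max_le hl h
    linarith
  · have h2 : max θ k = k := max_eq_right (hl.trans h)
    rw [h2]
    nlinarith

/-- the points of one scale -/
theorem soc_class (hn : 1 ≤ n) (hd : 1 ≤ d) {A : Fin d → Fin n → ℝ} (hA : ∀ i j, 0 ≤ A i j)
    {b : Fin n → ℝ} (hb : ∀ j, 0 ≤ b j) {t : ℝ} {Y X : Finset (Fin n → ℕ)} (hY : Y.Nonempty)
    (hX : ∀ x ∈ X, MinND Y x) (hYt : ∀ y ∈ Y, nrm A y + lin b y ≤ t)
    (hXt : ∀ x ∈ X, t < nrm A x + lin b x) {θ : ℝ} (hθ : 0 < θ)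
    (hX1 : ∀ x ∈ X, θ ≤ nrm A x) (hX2 : ∀ x ∈ X, nrm A x ≤ d * n * θ) :
    (X.card : ℝ) ≤ 336 * n ^ 6 * d ^ 3 * Y.card ^ 11 := by
  have hm : 1 ≤ Y.card := card_pos.2 hY
  have hn' : (1 : ℝ) ≤ n := by exact_mod_cast hn
  have hd' : (1 : ℝ) ≤ d := by exact_mod_cast hd
  have hm' : (1 : ℝ) ≤ Y.card := by exact_mod_cast hm
  set m := Y.card with hmdef
  set K : ℝ := d * n with hK
  have hK1 : 1 ≤ K := by rw [hK]; nlinarith
  set Γ : ℝ := m * K with hΓ
  have hΓ1 : 1 ≤ Γ := by rw [hΓ]; nlinarith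
  set w : (Fin n → ℕ) → ℝ := fun y => max 1 (2 * Γ * θ * (1 / (nrm A y + max θ (nrm A y)))) with hw
  have hden : ∀ y, θ ≤ nrm A y + max θ (nrm A y) := fun y => by
    have h1 := le_max_left θ (nrm A y)
    have h2 := nrm_nonneg A y
    linarith
  set k : (Fin n × Fin n) ⊕ Fin n → Bool := fun h => Sum.isLeft h with hk
  have h1 := core (g := fun h => Sum.elim (fun p : Fin n × Fin n => g2 p.1 p.2) (fun j => g1 j) h)
    (w := w) (R := 2 * Γ) (k := k) hY hX
    (by rintro (p | j)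
        · exact g2_good _ _
        · exact g1_good _)
    (by linarith) (fun y _ => le_max_left _ _)
    (fun y _ => by
      refine max_le (by linarith) ?_
      rw [mul_one_div, div_le_iff₀ (lt_of_lt_of_le hθ (hden y))]
      exact mul_le_mul_of_nonneg_left (hden y) (by linarith))
    (by
      intro X' hX' hX'n Y' hY' hY'n
      have hX'0 : (0 : ℝ) < X'.card := by exact_mod_cast card_pos.2 hX'n
      have hY'0 : (0 : ℝ) < Y'.card := by exact_mod_cast card_pos.2 hY'n
      have hY'm : (Y'.card : ℝ) ≤ m := by exact_mod_cast card_le_card hY'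
      -- linear case
      have hlin : (X'.card : ℝ) * ∑ y ∈ Y', lin b y < Y'.card * ∑ x ∈ X', lin b x →
          ∃ h, (X'.card : ℝ) * ∑ y ∈ Y', wt w (k h) y *
            F (Sum.elim (fun p : Fin n × Fin n => g2 p.1 p.2) (fun j => g1 j) h) y <
            (∑ y ∈ Y', wt w (k h) y) *
              ∑ x ∈ X', F (Sum.elim (fun p : Fin n × Fin n => g2 p.1 p.2) (fun j => g1 j) h) x := by
        intro h
        by_contra hcon
        push Not at hcon
        have h2 : ∀ j : Fin n, (Y'.card : ℝ) * ∑ x ∈ X', F (g1 j) x ≤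
            X'.card * ∑ y ∈ Y', F (g1 j) y := by
          intro j
          have := hcon (Sum.inr j)
          simpa [wt, hk] using this
        have h3 : ∑ j, b j * ((Y'.card : ℝ) * ∑ x ∈ X', F (g1 j) x) ≤
            ∑ j, b j * (X'.card * ∑ y ∈ Y', F (g1 j) y) :=
          sum_le_sum fun j _ => mul_le_mul_of_nonneg_left (h2 j) (hb j)
        have h4 : ∀ (Z : Finset (Fin n → ℕ)) (c : ℝ), ∑ j, b j * (c * ∑ x ∈ Z, F (g1 j) x) =
            c * ∑ x ∈ Z, lin b x := by
          intro Z c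
          simp only [lin_eq]
          rw [sum_comm, mul_sum]
          refine sum_congr rfl fun h _ => ?_
          rw [← mul_sum]; ring
        rw [h4, h4] at h3
        linarith
      have hYt' : ∀ y ∈ Y', nrm A y + lin b y ≤ t := fun y hy => hYt y (hY' hy)
      have hEf : (X'.card : ℝ) * t < ∑ x ∈ X', (nrm A x + lin b x) := by
        have := sum_lt_sum_of_nonempty hX'n fun x hx => hXt x (hX' hx)
        rwa [sum_const, nsmul_eq_mul] at this
      rw [sum_add_distrib] at hEf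
      have hElam : ∑ x ∈ X', nrm A x ≤ X'.card * (K * θ) := by
        have := sum_le_sum fun x hx => hX2 x (hX' hx)
        rwa [sum_const, nsmul_eq_mul] at this
      by_cases hbig : ∃ y0 ∈ Y', Γ * θ < nrm A y0
      · obtain ⟨y0, hy0, hy0'⟩ := hbig
        apply hlin
        have h2 : Γ * θ < ∑ y ∈ Y', nrm A y :=
          lt_of_lt_of_le hy0' (single_le_sum (fun y _ => nrm_nonneg A y) hy0)
        have h3 : ∑ y ∈ Y', (nrm A y + lin b y) ≤ Y'.card * t := by
          have := sum_le_sum hYt'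
          rwa [sum_const, nsmul_eq_mul] at this
        rw [sum_add_distrib] at h3
        have h4 : (Y'.card : ℝ) * (K * θ) ≤ Γ * θ := by
          have h44 : (Y'.card : ℝ) * (K * θ) ≤ m * (K * θ) :=
            mul_le_mul_of_nonneg_right hY'm (by positivity)
          rw [hΓ]
          linarith
        have h5 := mul_lt_mul_of_pos_left hEf hY'0
        have h6 := mul_le_mul_of_nonneg_left h3 hX'0.le
        have h7 := mul_le_mul_of_nonneg_left hElam hY'0.le
        have h8 := mul_lt_mul_of_pos_left h2 hX'0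
        have h9 := mul_le_mul_of_nonneg_left h4 hX'0.le
        nlinarith
      · push Not at hbig
        by_cases hl : (X'.card : ℝ) * ∑ y ∈ Y', lin b y < Y'.card * ∑ x ∈ X', lin b x
        · exact hlin hl
        rw [not_lt] at hl
        set c : (Fin n → ℕ) → ℝ := fun y => 1 / (nrm A y + max θ (nrm A y)) with hc
        have hcpos : ∀ y, 0 < c y := fun y => one_div_pos.2 (lt_of_lt_of_le hθ (hden y))
        have hwc : ∀ y ∈ Y', w y = 2 * Γ * θ * c y := by
          intro y hy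
          refine max_eq_right ?_
          rw [mul_one_div, le_div_iff₀ (lt_of_lt_of_le hθ (hden y)), one_mul]
          have h2 := hbig y hy
          have h3 : max θ (nrm A y) ≤ Γ * θ := max_le (by nlinarith) h2
          linarith
        have h2 : ∀ y ∈ Y', ∑ x ∈ X', (nrm A x - nrm A y) ≤
            ∑ x ∈ X', c y * (nrm A x ^ 2 - nrm A y ^ 2) := by
          intro y _
          exact sum_le_sum fun x hx => elem hθ (hX1 x (hX' hx)) (nrm_nonneg A y)
        have h3 : ∀ y ∈ Y', 0 < ∑ x ∈ X', c y * (nrm A x ^ 2 - nrm A y ^ 2) +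
            (∑ x ∈ X', lin b x - X'.card * lin b y) := by
          intro y hy
          have h4 := h2 y hy
          rw [sum_sub_distrib, sum_const, nsmul_eq_mul] at h4
          have h5 := mul_le_mul_of_nonneg_left (hYt' y hy) hX'0.le
          linarith
        have h4 := sum_pos h3 hY'n
        rw [sum_add_distrib, sum_sub_distrib, sum_const, nsmul_eq_mul, ← mul_sum] at h4
        have h5 : 0 < ∑ y ∈ Y', ∑ x ∈ X', c y * (nrm A x ^ 2 - nrm A y ^ 2) := by linarith
        have h6 : ∑ y ∈ Y', ∑ x ∈ X', c y * (nrm A x ^ 2 - nrm A y ^ 2) =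
            (∑ y ∈ Y', c y) * ∑ x ∈ X', nrm A x ^ 2 - X'.card * ∑ y ∈ Y', c y * nrm A y ^ 2 := by
          rw [sum_mul, mul_sum, ← sum_sub_distrib]
          refine sum_congr rfl fun y _ => ?_
          rw [← mul_sum, sum_sub_distrib, sum_const, nsmul_eq_mul]
          ring
        rw [h6] at h5
        by_contra hcon
        push Not at hcon
        have h7 : ∀ p : Fin n × Fin n, (∑ y ∈ Y', c y) * ∑ x ∈ X', F (g2 p.1 p.2) x ≤
            X'.card * ∑ y ∈ Y', c y * F (g2 p.1 p.2) y := by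
          intro p
          have h8 := hcon (Sum.inl p)
          simp only [wt, hk, Sum.isLeft_inl, if_true, Sum.elim_inl] at h8
          have e1 : ∑ y ∈ Y', w y = 2 * Γ * θ * ∑ y ∈ Y', c y := by
            rw [mul_sum]; exact sum_congr rfl hwc
          have e2 : ∑ y ∈ Y', w y * F (g2 p.1 p.2) y =
              2 * Γ * θ * ∑ y ∈ Y', c y * F (g2 p.1 p.2) y := by
            rw [mul_sum]
            exact sum_congr rfl fun y hy => by rw [hwc y hy]; ring
          rw [e1, e2] at h8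
          have h10 : 0 < 2 * Γ * θ := by positivity
          refine le_of_mul_le_mul_left ?_ h10
          linarith
        have h8 : ∑ p : Fin n × Fin n, (∑ i, A i p.1 * A i p.2) *
              ((∑ y ∈ Y', c y) * ∑ x ∈ X', F (g2 p.1 p.2) x) ≤
            ∑ p : Fin n × Fin n, (∑ i, A i p.1 * A i p.2) *
              (X'.card * ∑ y ∈ Y', c y * F (g2 p.1 p.2) y) :=
          sum_le_sum fun p _ => mul_le_mul_of_nonneg_left (h7 p)
            (sum_nonneg fun i _ => mul_nonneg (hA _ _) (hA _ _))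
        have h9 : ∀ (Z : Finset (Fin n → ℕ)) (v : (Fin n → ℕ) → ℝ) (r : ℝ),
            ∑ p : Fin n × Fin n, (∑ i, A i p.1 * A i p.2) *
              (r * ∑ x ∈ Z, v x * F (g2 p.1 p.2) x) = r * ∑ x ∈ Z, v x * nrm A x ^ 2 := by
          intro Z v r
          simp only [nrm_sq]
          rw [mul_sum]
          simp only [mul_sum]
          rw [sum_comm]
          refine sum_congr rfl fun x _ => ?_
          refine sum_congr rfl fun p _ => ?_
          ring
        have h10 := h9 X' (fun _ => 1) (∑ y ∈ Y', c y)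
        simp only [one_mul] at h10
        rw [h9, h10] at h8
        linarith)
  refine h1.trans ?_
  have hcardι : (Fintype.card ((Fin n × Fin n) ⊕ Fin n) : ℝ) = n * n + n := by
    simp
  rw [hcardι]
  have hQ : (m : ℝ) * (2 * Γ) = 2 * m ^ 2 * d * n := by rw [hΓ, hK]; ring
  set Q : ℝ := (m : ℝ) * (2 * Γ) with hQdef
  have hQ1 : 1 ≤ Q := by rw [hQdef]; nlinarith
  have hs1 : s1 n m (2 * Γ) ≤ 28 * m ^ 7 * n ^ 3 * d ^ 2 := by
    unfold s1
    rw [← hQdef]
    have e1 : Q * (Q * (m + 1) + 1) * (m + 1) ≤ 6 * m ^ 2 * Q ^ 2 := by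
      have e2 : Q * (m + 1) + 1 ≤ Q * (m + 2) := by linarith
      have e3 : Q * (Q * (m + 1) + 1) * (m + 1) ≤ Q * (Q * (m + 2)) * (m + 1) := by
        refine mul_le_mul_of_nonneg_right (mul_le_mul_of_nonneg_left e2 (by linarith)) (by linarith)
      have e4 : ((m : ℝ) + 2) * (m + 1) ≤ 6 * m ^ 2 := by nlinarith
      have e5 : Q * (Q * (m + 2)) * (m + 1) = Q ^ 2 * (((m : ℝ) + 2) * (m + 1)) := by ring
      have e6 := mul_le_mul_of_nonneg_left e4 (sq_nonneg Q)
      linarith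
    have e2 : 6 * (m : ℝ) ^ 2 * Q ^ 2 = 24 * m ^ 6 * d ^ 2 * n ^ 2 := by rw [hQ]; ring
    have e3 : (1 : ℝ) ≤ m ^ 6 * d ^ 2 * n ^ 2 := by
      have := one_le_pow₀ (n := 6) hm'
      have := one_le_pow₀ (n := 2) hd'
      have := one_le_pow₀ (n := 2) hn'
      have h3 : (1 : ℝ) ≤ m ^ 6 * d ^ 2 := by nlinarith
      nlinarith
    have e4 : (n : ℝ) * (m + 1) ≤ 2 * (m ^ 6 * d ^ 2 * n ^ 2) := by
      have e5 : (m : ℝ) ≤ m ^ 6 := by
        calc (m : ℝ) = m ^ 1 := (pow_one _).symm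
          _ ≤ m ^ 6 := pow_le_pow_right₀ hm' (by norm_num)
      have e6 : (n : ℝ) ≤ n ^ 2 := by nlinarith
      have e7 : (1 : ℝ) ≤ d ^ 2 := one_le_pow₀ hd'
      have e8 : (m : ℝ) * n ≤ m ^ 6 * n ^ 2 := mul_le_mul e5 e6 (by linarith) (by positivity)
      have e9 : (m : ℝ) ^ 6 * n ^ 2 ≤ m ^ 6 * n ^ 2 * d ^ 2 := le_mul_of_one_le_right (by positivity) e7
      have e10 : (n : ℝ) * (m + 1) ≤ 2 * (m * n) := by nlinarith
      linarith
    have e5 : (1 : ℝ) + Q * (Q * (m + 1) + 1) * (m + 1) + n * (m + 1) ≤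
        27 * (m ^ 6 * d ^ 2 * n ^ 2) := by linarith
    have e6 := mul_le_mul_of_nonneg_left e5 (show (0 : ℝ) ≤ m * n by positivity)
    have e7 : (1 : ℝ) ≤ m ^ 7 * n ^ 3 * d ^ 2 := by
      have e8 : (m : ℝ) ^ 7 * n ^ 3 * d ^ 2 = (m * n) * (m ^ 6 * d ^ 2 * n ^ 2) := by ring
      rw [e8]
      have : (1 : ℝ) ≤ m * n := by nlinarith
      nlinarith
    have e8 : (m : ℝ) * n * (27 * (m ^ 6 * d ^ 2 * n ^ 2)) = 27 * (m ^ 7 * n ^ 3 * d ^ 2) := by ring
    linarith
  have hnn : (n : ℝ) * n + n ≤ 2 * n ^ 2 := by nlinarith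
  have hs0 : 0 ≤ s1 n m (2 * Γ) := by unfold s1; positivity
  calc ((n : ℝ) * n + n) * s1 n m (2 * Γ) * m * 3 * (m * Q)
      = ((n : ℝ) * n + n) * s1 n m (2 * Γ) * (3 * m ^ 2 * Q) := by ring
    _ ≤ (2 * n ^ 2) * (28 * m ^ 7 * n ^ 3 * d ^ 2) * (3 * m ^ 2 * Q) := by
        refine mul_le_mul_of_nonneg_right ?_ (by positivity)
        exact mul_le_mul hnn hs1 hs0 (by positivity)
    _ = 336 * n ^ 6 * d ^ 3 * m ^ 11 := by rw [hQ]; ring

/-- the dual bound for second-order cone inequalities -/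
theorem soc_bound (hn : 1 ≤ n) {A : Fin d → Fin n → ℝ} (hA : ∀ i j, 0 ≤ A i j)
    {b : Fin n → ℝ} (hb : ∀ j, 0 ≤ b j) {t : ℝ} {Y X : Finset (Fin n → ℕ)}
    (hX : ∀ x ∈ X, MinND Y x) (hYt : ∀ y ∈ Y, nrm A y + lin b y ≤ t)
    (hXt : ∀ x ∈ X, t < nrm A x + lin b x) :
    X.card ≤ 366 * n ^ 7 * (d + 1) ^ 4 * Y.card ^ 12 + 1 := by
  rcases Y.eq_empty_or_nonempty with hY | hY
  · have h1 : X.card ≤ 1 := by
      rw [card_le_one]
      intro x hx x' hx'
      have h2 := (hX x hx).mn 0 (fun i => Nat.zero_le _) (by simp [hY])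
      have h3 := (hX x' hx').mn 0 (fun i => Nat.zero_le _) (by simp [hY])
      rw [← h2, ← h3]
    omega
  have hm : 1 ≤ Y.card := card_pos.2 hY
  -- the points with norm zero
  set X0 := X.filter (fun x => nrm A x = 0) with hX0
  have hb0 : X0.card ≤ 30 * n * n ^ 2 * Y.card ^ 8 + 1 := by
    have h1 := sum_bound (X := X0) (Y := Y) (g := fun j : Fin n => g1 j) (a := b) (t := t) hn
      (fun x hx => hX x (mem_filter.1 hx).1) (fun j => g1_good j) hb
      (fun y hy => by
        rw [← lin_eq]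
        have := hYt y hy
        have := nrm_nonneg A y
        linarith)
      (fun x hx => by
        rw [← lin_eq]
        rw [hX0, mem_filter] at hx
        have := hXt x hx.1
        rw [hx.2, zero_add] at this
        exact this)
    rwa [Fintype.card_fin] at h1
  -- the classes
  set T : (Fin d × Fin n) × (Fin n → ℕ) → Finset (Fin n → ℕ) := fun p => X.filter fun x =>
    0 < A p.1.1 p.1.2 * (p.2 p.1.2 + 1 : ℝ) ∧ A p.1.1 p.1.2 * (p.2 p.1.2 + 1 : ℝ) ≤ nrm A x ∧
      nrm A x ≤ d * n * (A p.1.1 p.1.2 * (p.2 p.1.2 + 1 : ℝ)) with hT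
  have hcov : X ⊆ X0 ∪ ((univ ×ˢ univ) ×ˢ Y).biUnion T := by
    intro x hx
    by_cases h0 : nrm A x = 0
    · exact mem_union_left _ (mem_filter.2 ⟨hx, h0⟩)
    refine mem_union_right _ ?_
    have hpos : 0 < nrm A x := lt_of_le_of_ne (nrm_nonneg A x) (Ne.symm h0)
    have hne : ((univ : Finset (Fin d)) ×ˢ (univ : Finset (Fin n))).Nonempty := by
      have hdpos : 0 < d := by
        rcases Nat.eq_zero_or_pos d with rfl | h
        · exfalso; apply h0; unfold nrm; simp
        · exact h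
      exact ⟨(⟨0, hdpos⟩, ⟨0, hn⟩), by simp⟩
    obtain ⟨⟨i, j⟩, -, hmax⟩ := exists_max_image _ (fun p : Fin d × Fin n => A p.1 p.2 * (x p.2 : ℝ)) hne
    set θ := A i j * (x j : ℝ) with hθ
    have hmax' : ∀ i' j', A i' j' * (x j' : ℝ) ≤ θ := fun i' j' => hmax (i', j') (by simp)
    have hθ0 : 0 ≤ θ := mul_nonneg (hA _ _) (Nat.cast_nonneg _)
    have hrow : ∀ i', 0 ≤ ∑ j', A i' j' * (x j' : ℝ) := fun i' =>
      sum_nonneg fun j' _ => mul_nonneg (hA _ _) (Nat.cast_nonneg _)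
    have hrow2 : ∀ i', ∑ j', A i' j' * (x j' : ℝ) ≤ n * θ := by
      intro i'
      have := sum_le_sum fun j' (_ : j' ∈ (univ : Finset (Fin n))) => hmax' i' j'
      rwa [sum_const, nsmul_eq_mul, card_univ, Fintype.card_fin] at this
    have hup : nrm A x ≤ d * n * θ := by
      unfold nrm
      rw [Real.sqrt_le_left (by positivity)]
      have h1 : ∑ i', (∑ j', A i' j' * (x j' : ℝ)) ^ 2 ≤ ∑ _i' : Fin d, (n * θ) ^ 2 :=
        sum_le_sum fun i' _ => pow_le_pow_left₀ (hrow i') (hrow2 i') 2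
      rw [sum_const, nsmul_eq_mul, card_univ, Fintype.card_fin] at h1
      refine h1.trans ?_
      have h2 : (d : ℝ) ≤ d ^ 2 := by
        rcases Nat.eq_zero_or_pos d with h | h
        · rw [h]; simp
        · have : (1 : ℝ) ≤ d := by exact_mod_cast h
          nlinarith
      have h3 : ((d : ℝ) * n * θ) ^ 2 = d ^ 2 * (n * θ) ^ 2 := by ring
      rw [h3]
      exact mul_le_mul_of_nonneg_right h2 (sq_nonneg _)
    have hlow : θ ≤ nrm A x := by
      unfold nrm
      refine Real.le_sqrt_of_sq_le ?_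
      have h1 : θ ≤ ∑ j', A i j' * (x j' : ℝ) :=
        single_le_sum (f := fun j' => A i j' * (x j' : ℝ))
          (fun j' _ => mul_nonneg (hA _ _) (Nat.cast_nonneg _)) (mem_univ j)
      have h2 : (∑ j', A i j' * (x j' : ℝ)) ^ 2 ≤ ∑ i', (∑ j', A i' j' * (x j' : ℝ)) ^ 2 :=
        single_le_sum (f := fun i' => (∑ j', A i' j' * (x j' : ℝ)) ^ 2)
          (fun i' _ => sq_nonneg _) (mem_univ i)
      exact (pow_le_pow_left₀ hθ0 h1 2).trans h2
    have hθpos : 0 < θ := by
      rcases hθ0.lt_or_eq with h | h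
      · exact h
      · rw [← h, mul_zero] at hup; linarith
    have hxj : 0 < x j := by
      rcases Nat.eq_zero_or_pos (x j) with h | h
      · rw [hθ, h] at hθpos; simp at hθpos
      · exact h
    obtain ⟨y, hy, hyj, -⟩ := ((hX x hx).adm (u := 0) (fun i => Nat.zero_le _)).ex (j := j) hxj
    rw [mem_filter] at hy
    rw [mem_biUnion]
    refine ⟨((i, j), y), by simp [hy.1], ?_⟩
    have he : A i j * ((y j : ℝ) + 1) = θ := by
      rw [hθ, ← hyj]; push_cast; rfl
    rw [hT]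
    simp only [mem_filter]
    rw [he]
    exact ⟨hx, hθpos, hlow, hup⟩
  have hbT : ∀ p ∈ ((univ : Finset (Fin d)) ×ˢ (univ : Finset (Fin n))) ×ˢ Y,
      (T p).card ≤ 336 * n ^ 6 * d ^ 3 * Y.card ^ 11 := by
    intro p _
    have hd : 1 ≤ d := lt_of_le_of_lt (Nat.zero_le _) p.1.1.isLt
    by_cases hθ : 0 < A p.1.1 p.1.2 * (p.2 p.1.2 + 1 : ℝ)
    · have h1 := soc_class (X := T p) hn hd hA hb hY (fun x hx => hX x (mem_filter.1 hx).1) hYt
        (fun x hx => hXt x (mem_filter.1 hx).1) hθ (fun x hx => (mem_filter.1 hx).2.2.1)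
        (fun x hx => (mem_filter.1 hx).2.2.2)
      exact_mod_cast h1
    · have h1 : T p = ∅ := by
        rw [hT]; exact filter_false_of_mem fun x _ h => hθ h.1
      rw [h1, card_empty]; exact Nat.zero_le _
  have h1 : X.card ≤ X0.card + d * n * Y.card * (336 * n ^ 6 * d ^ 3 * Y.card ^ 11) := by
    refine (card_le_card hcov).trans ((card_union_le _ _).trans (Nat.add_le_add_left ?_ _))
    refine card_biUnion_le.trans ((sum_le_sum hbT).trans (le_of_eq ?_))
    rw [sum_const, smul_eq_mul, card_product, card_product, card_univ, card_univ, Fintype.card_fin,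
      Fintype.card_fin]
  have h2 : d * n * Y.card * (336 * n ^ 6 * d ^ 3 * Y.card ^ 11) =
      336 * n ^ 7 * d ^ 4 * Y.card ^ 12 := by ring
  rw [h2] at h1
  have h3 : 336 * n ^ 7 * d ^ 4 * Y.card ^ 12 ≤ 336 * n ^ 7 * (d + 1) ^ 4 * Y.card ^ 12 := by
    gcongr; omega
  have h4 : 30 * n * n ^ 2 * Y.card ^ 8 ≤ 30 * n ^ 7 * (d + 1) ^ 4 * Y.card ^ 12 := by
    have e1 : n * n ^ 2 ≤ n ^ 7 := by
      have : n * n ^ 2 = n ^ 3 := by ring
      rw [this]; exact Nat.pow_le_pow_right hn (by norm_num)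
    have e2 : Y.card ^ 8 ≤ Y.card ^ 12 := Nat.pow_le_pow_right hm (by norm_num)
    have e3 : 1 ≤ (d + 1) ^ 4 := Nat.one_le_pow _ _ (Nat.succ_pos d)
    calc 30 * n * n ^ 2 * Y.card ^ 8 = 30 * (n * n ^ 2) * 1 * Y.card ^ 8 := by ring
      _ ≤ 30 * n ^ 7 * (d + 1) ^ 4 * Y.card ^ 12 := by gcongr
  have h5 : 366 * n ^ 7 * (d + 1) ^ 4 * Y.card ^ 12 = 336 * n ^ 7 * (d + 1) ^ 4 * Y.card ^ 12 +
      30 * n ^ 7 * (d + 1) ^ 4 * Y.card ^ 12 := by ring
  rw [h5]
  omega

end Pool.Agent.N599.MD
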