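import Pool.Agent.N599.MD.Prod

/-!
# The averaging step
-/

set_option autoImplicit false

namespace Pool.Agent.N599.MD

open Finset Classical

variable {n : ℕ}

/-- If the average of `F g` over `X` is larger than its weighted average over `Y`, although the
essential parts of the points of `X` are small, then some point `z` is below relatively many points
of `X`. -/
theorem step {Y : Finset (Fin n → ℕ)} (hY : Y.Nonempty) {u : Fin n → ℕ} (hu : ∀ y ∈ Y, u ≤ y)
    {X : Finset (Fin n → ℕ)} (hX : ∀ x ∈ X, Adm Y u x) {g : Fin n → ℕ → ℝ} (hg : Good g)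
    {c : (Fin n → ℕ) → ℝ} (hc : ∀ y ∈ Y, 0 < c y) {ε : ℝ}
    (hS : ∀ x ∈ X, rs g (meet Y hY) x * ∑ y ∈ Y, c y ≤
      ε * ∑ y ∈ Y, c y * (F g y - F g (meet Y hY)))
    (hA : (X.card : ℝ) * ∑ y ∈ Y, c y * F g y < (∑ y ∈ Y, c y) * ∑ x ∈ X, F g x) :
    ∃ z, ¬ z ≤ meet Y hY ∧ (∃ y ∈ Y, z ≤ y) ∧
      (1 - ε) * X.card * ∑ y ∈ Y with z ≤ y, c y <
        (∑ y ∈ Y, c y) * ((X.filter (z ≤ ·)).card : ℝ) := by
  by_contra hcon
  push Not at hcon
  obtain ⟨y0, hy0⟩ := id hY
  set us := meet Y hY with hus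
  set C := ∑ y ∈ Y, c y with hC
  have hC0 : 0 ≤ C := sum_nonneg fun y hy => (hc y hy).le
  set U := (X ∪ Y).biUnion box with hU
  set N : (Fin n → ℕ) → ℝ := fun z => ((X.filter (z ≤ ·)).card : ℝ) with hN
  set D : (Fin n → ℕ) → ℝ := fun z => ∑ y ∈ Y with z ≤ y, c y with hD
  have hF : ∀ x ∈ X ∪ Y, F g x = ∑ z ∈ U, if z ≤ x then rho g z else 0 := by
    intro x hx
    rw [F_eq, ← sum_filter]
    refine sum_congr ?_ fun _ _ => rfl
    ext z
    simp only [mem_filter, mem_box, hU, mem_biUnion]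
    exact ⟨fun h => ⟨⟨x, hx, h⟩, h⟩, fun h => h.2⟩
  have hFus : F g us = ∑ z ∈ U, if z ≤ us then rho g z else 0 := by
    rw [F_eq, ← sum_filter]
    refine sum_congr ?_ fun _ _ => rfl
    ext z
    simp only [mem_filter, mem_box, hU, mem_biUnion]
    exact ⟨fun h => ⟨⟨y0, mem_union_right _ hy0, h.trans (meet_le hY hy0)⟩, h⟩, fun h => h.2⟩
  have hX1 : ∑ x ∈ X, F g x = ∑ z ∈ U, rho g z * N z := by
    rw [sum_congr rfl fun x hx => hF x (mem_union_left _ hx), sum_comm]
    refine sum_congr rfl fun z _ => ?_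
    rw [← sum_filter, sum_const, nsmul_eq_mul, mul_comm]
  have hY1 : ∑ y ∈ Y, c y * F g y = ∑ z ∈ U, rho g z * D z := by
    rw [sum_congr rfl fun y hy => by rw [hF y (mem_union_right _ hy), mul_sum], sum_comm]
    refine sum_congr rfl fun z _ => ?_
    simp only [hD]
    rw [mul_sum, sum_filter]
    refine sum_congr rfl fun y _ => ?_
    split_ifs <;> ring
  have hY2 : ∑ y ∈ Y, c y * (F g y - F g us) =
      ∑ z ∈ U, rho g z * (D z - if z ≤ us then C else 0) := by
    have h1 : ∑ y ∈ Y, c y * (F g y - F g us) = ∑ y ∈ Y, c y * F g y - C * F g us := by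
      rw [hC, sum_mul, ← sum_sub_distrib]
      exact sum_congr rfl fun y _ => by ring
    rw [h1, hY1, hFus, mul_sum, ← sum_sub_distrib]
    refine sum_congr rfl fun z _ => ?_
    split_ifs <;> ring
  have hlow : ∑ z ∈ U, (if ∀ y ∈ Y, ¬ z ≤ y then rho g z * N z else 0) ≤ ∑ x ∈ X, rs g us x := by
    have h1 : ∀ z ∈ U, (if ∀ y ∈ Y, ¬ z ≤ y then rho g z * N z else 0) =
        ∑ x ∈ X, (if z ≤ x ∧ ∀ y ∈ Y, ¬ z ≤ y then rho g z else 0) := by
      intro z _
      by_cases h : ∀ y ∈ Y, ¬ z ≤ y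
      · rw [if_pos h]
        have h' : ∀ x : Fin n → ℕ, (z ≤ x ∧ ∀ y ∈ Y, ¬ z ≤ y) = (z ≤ x) :=
          fun x => propext (and_iff_left h)
        simp only [h']
        rw [← sum_filter, sum_const, nsmul_eq_mul, mul_comm]
      · rw [if_neg h]
        have h' : ∀ x : Fin n → ℕ, (z ≤ x ∧ ∀ y ∈ Y, ¬ z ≤ y) = False :=
          fun x => eq_false fun h1 => h h1.2
        simp only [h', if_false, sum_const_zero]
    rw [sum_congr rfl h1, sum_comm]
    refine sum_le_sum fun x hx => ?_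
    refine le_trans (le_of_eq ?_) ((hX x hx).low hY hu hg)
    rw [← sum_filter]
    refine sum_congr ?_ fun _ _ => rfl
    ext z
    simp only [mem_filter, mem_box, hU, mem_biUnion]
    exact ⟨fun h => h.2, fun h => ⟨⟨x, mem_union_left _ hx, h.1⟩, h⟩⟩
  have hpt : ∀ z ∈ U, C * (rho g z * N z) ≤ X.card * (rho g z * D z) -
      ε * X.card * (rho g z * (D z - if z ≤ us then C else 0)) +
      C * (if ∀ y ∈ Y, ¬ z ≤ y then rho g z * N z else 0) := by
    intro z _
    have hr := hg.rho_nonneg z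
    by_cases h1 : z ≤ us
    · have h2 : ¬ ∀ y ∈ Y, ¬ z ≤ y := fun h => h y0 hy0 (h1.trans (meet_le hY hy0))
      have h3 : D z = C := by
        simp only [hD, hC]
        rw [filter_true_of_mem]
        exact fun y hy => h1.trans (meet_le hY hy)
      rw [if_pos h1, if_neg h2, h3]
      have h4 : N z ≤ X.card := by
        simp only [hN]; exact_mod_cast card_filter_le _ _
      have h5 : rho g z * C * N z ≤ rho g z * C * X.card :=
        mul_le_mul_of_nonneg_left h4 (mul_nonneg hr hC0)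
      nlinarith [h5]
    · by_cases h2 : ∀ y ∈ Y, ¬ z ≤ y
      · have h3 : D z = 0 := by
          simp only [hD]
          rw [filter_false_of_mem h2, sum_empty]
        rw [if_neg h1, if_pos h2, h3]
        linarith
      · rw [if_neg h1, if_neg h2]
        push Not at h2
        have h3 := hcon z h1 h2
        have h4 : rho g z * (C * N z) ≤ rho g z * ((1 - ε) * X.card * D z) :=
          mul_le_mul_of_nonneg_left h3 hr
        nlinarith [h4]
  have hsum := sum_le_sum hpt
  rw [sum_add_distrib, sum_sub_distrib, ← mul_sum, ← mul_sum, ← mul_sum, ← mul_sum, ← hX1, ← hY1,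
    ← hY2] at hsum
  have h6 : C * ∑ z ∈ U, (if ∀ y ∈ Y, ¬ z ≤ y then rho g z * N z else 0) ≤
      X.card * (ε * ∑ y ∈ Y, c y * (F g y - F g us)) := by
    refine (mul_le_mul_of_nonneg_left hlow hC0).trans ?_
    rw [mul_sum]
    have h7 := sum_le_sum hS
    rw [sum_const, nsmul_eq_mul] at h7
    refine le_trans (le_of_eq ?_) h7
    exact sum_congr rfl fun x _ => mul_comm _ _
  linarith [hsum, h6, hA]

end Pool.Agent.N599.MD
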