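import Pool.Agent.N599.MD.Core

/-!
# Sums of products of monotone functions of one variable
-/

set_option autoImplicit false

namespace Pool.Agent.N599.MD

open Finset Classical

variable {n : ℕ}

/-- a simple form of the bound in `core` -/
theorem core_bound {n m h : ℕ} (hn : 1 ≤ n) (hm : 1 ≤ m) :
    (h : ℝ) * s1 n m 1 * m * 3 * (m * (m * 1)) ≤ 30 * h * n ^ 2 * m ^ 8 := by
  have hn' : (1 : ℝ) ≤ n := by exact_mod_cast hn
  have hm' : (1 : ℝ) ≤ m := by exact_mod_cast hm
  have h1 : s1 n m 1 ≤ 10 * n ^ 2 * m ^ 5 := by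
    unfold s1
    have e1 : (m : ℝ) * 1 * (m * 1 * (m + 1) + 1) * (m + 1) ≤ 6 * m ^ 4 := by
      nlinarith [pow_pos (lt_of_lt_of_le one_pos hm') 2, pow_pos (lt_of_lt_of_le one_pos hm') 3,
        mul_nonneg (sub_nonneg.2 hm') (pow_nonneg (zero_le_one.trans hm') 1),
        mul_nonneg (sub_nonneg.2 hm') (pow_nonneg (zero_le_one.trans hm') 2),
        mul_nonneg (sub_nonneg.2 hm') (pow_nonneg (zero_le_one.trans hm') 3)]
    have e2 : (n : ℝ) * (m + 1) ≤ 2 * n * m := by nlinarith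
    have e3 : (1 : ℝ) + 6 * m ^ 4 + 2 * n * m ≤ 9 * n * m ^ 4 := by
      have e4 : (m : ℝ) ≤ m ^ 4 := by
        calc (m : ℝ) = m ^ 1 := (pow_one _).symm
          _ ≤ m ^ 4 := pow_le_pow_right₀ hm' (by norm_num)
      have e5 : (1 : ℝ) ≤ m ^ 4 := one_le_pow₀ hm'
      have e6 : (m : ℝ) ^ 4 ≤ n * m ^ 4 := le_mul_of_one_le_left (by positivity) hn'
      have e7 : (n : ℝ) * m ≤ n * m ^ 4 := mul_le_mul_of_nonneg_left e4 (by positivity)
      nlinarith
    have e4 : (m : ℝ) * n * (1 + (m : ℝ) * 1 * (m * 1 * (m + 1) + 1) * (m + 1) + n * (m + 1)) ≤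
        m * n * (9 * n * m ^ 4) := mul_le_mul_of_nonneg_left (by linarith) (by positivity)
    have e5 : (1 : ℝ) ≤ n ^ 2 * m ^ 5 := by
      have := one_le_pow₀ (n := 2) hn'
      have := one_le_pow₀ (n := 5) hm'
      nlinarith
    nlinarith
  have h2 : (h : ℝ) * s1 n m 1 * m * 3 * (m * (m * 1)) = (3 * h * m ^ 3) * s1 n m 1 := by ring
  have h3 : 30 * (h : ℝ) * n ^ 2 * m ^ 8 = (3 * h * m ^ 3) * (10 * n ^ 2 * m ^ 5) := by ring
  rw [h2, h3]
  exact mul_le_mul_of_nonneg_left h1 (by positivity)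

/-- The dual bound for sums of products of monotone functions of one variable. -/
theorem sum_bound {ι : Type*} [Fintype ι] (hn : 1 ≤ n) {Y X : Finset (Fin n → ℕ)}
    (hX : ∀ x ∈ X, MinND Y x) {g : ι → Fin n → ℕ → ℝ} (hg : ∀ h, Good (g h)) {a : ι → ℝ}
    (ha : ∀ h, 0 ≤ a h) {t : ℝ} (hYt : ∀ y ∈ Y, ∑ h, a h * F (g h) y ≤ t)
    (hXt : ∀ x ∈ X, t < ∑ h, a h * F (g h) x) :
    X.card ≤ 30 * Fintype.card ι * n ^ 2 * Y.card ^ 8 + 1 := by
  rcases Y.eq_empty_or_nonempty with hY | hY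
  · have h1 : X.card ≤ 1 := by
      rw [card_le_one]
      intro x hx x' hx'
      have h2 := (hX x hx).mn 0 (fun i => Nat.zero_le _) (by simp [hY])
      have h3 := (hX x' hx').mn 0 (fun i => Nat.zero_le _) (by simp [hY])
      rw [← h2, ← h3]
    omega
  · have h1 := core (w := fun _ => 1) (R := 1) (k := fun _ => false) hY hX hg (le_refl _)
      (fun _ _ => le_refl _) (fun _ _ => le_refl _) (by
        intro X' hX' hX'n Y' hY' hY'n
        simp only [wt, Bool.false_eq_true, if_false, one_mul, sum_const, nsmul_eq_mul, mul_one]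
        by_contra hcon
        push Not at hcon
        have h2 : ∑ h, a h * ((Y'.card : ℝ) * ∑ x ∈ X', F (g h) x) ≤
            ∑ h, a h * ((X'.card : ℝ) * ∑ y ∈ Y', F (g h) y) :=
          sum_le_sum fun h _ => mul_le_mul_of_nonneg_left (hcon h) (ha h)
        have h3 : ∀ (Z : Finset (Fin n → ℕ)) (c : ℝ), ∑ h, a h * (c * ∑ x ∈ Z, F (g h) x) =
            c * ∑ x ∈ Z, ∑ h, a h * F (g h) x := by
          intro Z c
          rw [sum_comm, mul_sum]
          refine sum_congr rfl fun h _ => ?_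
          rw [← mul_sum]; ring
        rw [h3, h3] at h2
        have h4 : ∑ y ∈ Y', ∑ h, a h * F (g h) y ≤ Y'.card * t := by
          have := sum_le_sum fun y hy => hYt y (hY' hy)
          rwa [sum_const, nsmul_eq_mul] at this
        have h5 : (X'.card : ℝ) * t < ∑ x ∈ X', ∑ h, a h * F (g h) x := by
          have := sum_lt_sum_of_nonempty hX'n fun x hx => hXt x (hX' hx)
          rwa [sum_const, nsmul_eq_mul] at this
        have h6 : (0 : ℝ) < Y'.card := by exact_mod_cast card_pos.2 hY'n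
        have h7 : (0 : ℝ) ≤ X'.card := by positivity
        have h8 := mul_lt_mul_of_pos_left h5 h6
        have h9 := mul_le_mul_of_nonneg_left h4 h7
        linarith)
    have h2 := h1.trans (core_bound hn (card_pos.2 hY))
    have h3 : X.card ≤ 30 * Fintype.card ι * n ^ 2 * Y.card ^ 8 := by exact_mod_cast h2
    omega

end Pool.Agent.N599.MD
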